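import Pool.Agent.Lib.H53K.C1a
import Pool.Agent.Lib.H53S.C1

set_option autoImplicit false

/-!
H53K, CHUNK C1: the cone over an affine curve, without any position hypothesis.
-/

open MvPolynomial Module Real MeasureTheory
open Pool.Agent.H89.Sect Pool.Agent.H89.Arr
open Pool.Agent.H89.GCurve Pool.Agent.H89.Kummer Pool.Agent.H89.Poly

namespace Pool.Agent.H53K

open Pool.Agent.H67T Pool.Agent.H53S

attribute [local instance] MvPolynomial.gradedAlgebra

/-- CHUNK C1 (M, copy).  Copy of `hasQ_coneR` (Lib/H53S/C1.lean; its auxiliary lemmas `c1_..` can be used) without `N`, `hNk`: return `m, cc, pb = fun i l => ε i (a'' l), Pb`.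
`eq` = `hpcc`; `span`: for `v` with all `lin (pb i) v = 0` the element `x = ∑ l, v l • a'' l` of `T` has `ε i x = 0` (`lin (pb i) v = ∑ l, ε i (a'' l) * v l`), so `x = 0` by `eq_zero_of_vanish` (with `g1`, the facts
`hε0`, `hεsep` passed to `hasQ_abstract`), and `v = 0` by `hli`; `ne`: from `hccli` (`cc l = 0` would give the relation `Pi.single l 1`); `not_mem` and `hasQ` as there (`hasQ` is `hmain`). -/
theorem hasQ_coneK {A : Type*} [CommRing A] [IsDomain A] [Algebra ℂ A] {n k q c : ℕ}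
    (t : Fin n → A) {F : ℕ → Submodule ℂ A}
    (hF : IsFilt F) (htF : ∀ j, t j ∈ F 1) (hgrow : ∀ s, finrank ℂ (F s) ≤ q * s + c)
    (τ : Fin q → (A →ₐ[ℂ] ℂ)) (hτ : ∀ l m, l ≠ m → ∃ j, τ l (t j) ≠ τ m (t j))
    (y₀ : Fin (n + 1) → ℂ) (hy₀ne : ∑ j, y₀ j • (Fin.cons 1 t : Fin (n + 1) → A) j ≠ 0)
    (hy₀ : ∀ l, τ l (∑ j, y₀ j • (Fin.cons 1 t : Fin (n + 1) → A) j) = 0)
    (L : (Fin (n + 1) → ℂ) ≃ₗ[ℂ] (Fin (n + 1) → ℂ)) (p : Fin k → Fin (n + 1) → ℂ)
    (h0 : ∀ i, trh L (p i) 0 ≠ 0) (ε' : Fin k → (A →ₐ[ℂ] ℂ))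
    (hε' : ∀ l j, ε' l (t j) * trh L (p l) 0 = trh L (p l) j.succ)
    (hε'sep : ∀ l m, l ≠ m → ∃ j, ε' l (t j) ≠ ε' m (t j))
    (hkq : q < k)
    (I : Ideal (MvPolynomial (Fin (n + 1)) ℂ)) [I.IsPrime]
    (hI : I.IsHomogeneous (homogeneousSubmodule (Fin (n + 1)) ℂ))
    (hnd : ∀ y : Fin (n + 1) → ℂ, y ≠ 0 → lf y ∉ I) (hred : ∀ i, ReducedSection I (p i)) :
    ∃ (m : ℕ) (cc : Fin m → Fin (n + 1) → ℂ) (pb : Fin k → Fin m → ℂ) (Pb : MvPolynomial (Fin m) ℂ),
      CurveOut q p I cc pb Pb := by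
  set a' : Fin (n + 1) → Polynomial A := cn t with ha'
  set ε : Fin k → (Polynomial A →ₐ[ℂ] ℂ) := fun l => pev (ε' l) (trh L (p l) 0) with hε
  have hεa' : ∀ l j, ε l (a' j) = trh L (p l) j := by
    intro l j
    refine Fin.cases ?_ (fun j => ?_) j
    · exact pev_cn_zero _ _ _
    · rw [hε, ha']
      simp only
      rw [pev_cn_succ, hε']
  have hp0 : ∀ i, p i ≠ 0 := by
    intro i h1
    apply h0 i
    rw [h1]
    simp [trh]
  -- the elements corresponding to the original coordinates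
  set a : Fin (n + 1) → Polynomial A := fun k => ∑ j, L.symm (Pi.single k 1) j • a' j
    with ha
  have hεa : ∀ l k, ε l (a k) = p l k := by
    intro l k
    simp only [ha, map_sum, map_smul, smul_eq_mul, hεa']
    have h1 := sum_trh L (p l) (L.symm (Pi.single k 1))
    rw [LinearEquiv.apply_symm_apply] at h1
    have h2 : ∑ j, p l j * (Pi.single k 1 : Fin (n + 1) → ℂ) j = p l k := by
      simp [Pi.single_apply]
    rw [h2] at h1
    rw [← h1]
    exact Finset.sum_congr rfl fun j _ => mul_comm _ _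
  have haa' : ∀ v : Fin (n + 1) → ℂ, ∑ j, v j • a' j = ∑ k, L v k • a k := by
    intro v
    have h1 : ∀ j, ∑ k, L v k * L.symm (Pi.single k 1) j = v j := by
      intro j
      have h2 := congrFun (map_eq_sum L.symm.toLinearMap (L v)) j
      have h3 : L.symm.toLinearMap (L v) = v := L.symm_apply_apply v
      rw [h3] at h2
      rw [h2, Finset.sum_apply]
      rfl
    simp only [ha, Finset.smul_sum, smul_smul]
    rw [Finset.sum_comm]
    refine Finset.sum_congr rfl fun j _ => ?_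
    rw [← Finset.sum_smul, h1]
  obtain ⟨m, a'', cc, hli, hspan'', hacc, hccli⟩ := c1_basis a
  set T := Submodule.span ℂ (Set.range a) with hT
  have hTa' : T = Submodule.span ℂ (Set.range a') := by
    apply le_antisymm
    · rw [hT, Submodule.span_le]
      rintro _ ⟨k, rfl⟩
      exact Submodule.sum_mem _ fun j _ => Submodule.smul_mem _ _ (Submodule.subset_span ⟨j, rfl⟩)
    · rw [Submodule.span_le]
      rintro _ ⟨j, rfl⟩
      have h1 := haa' (Pi.single j 1)
      have h2 : ∑ j', (Pi.single j 1 : Fin (n + 1) → ℂ) j' • a' j' = a' j := by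
        simp [Pi.single_apply]
      rw [h2] at h1
      rw [h1]
      exact Submodule.sum_mem _ fun k _ => Submodule.smul_mem _ _ (Submodule.subset_span ⟨k, rfl⟩)
  have haT' : ∀ j, a' j ∈ T := fun j => by rw [hTa']; exact Submodule.subset_span ⟨j, rfl⟩
  have hX : (Polynomial.X : Polynomial A) ∈ T := by
    have h1 : (Polynomial.X : Polynomial A) = a' 0 := by
      rw [ha', cn, Fin.cons_zero, map_one, one_mul]
    rw [h1]
    exact haT' 0
  have hsepT : ∀ (f g : A →ₐ[ℂ] ℂ) (c c' : ℂ), c ≠ 0 → c' ≠ 0 → (∃ j, f (t j) ≠ g (t j)) →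
      ∃ x ∈ T, pev f c x ≠ 0 ∧ pev g c' x = 0 := by
    rintro f g c c' hc hc' ⟨j, hj⟩
    refine ⟨a' j.succ - g (t j) • a' 0, T.sub_mem (haT' _) (T.smul_mem _ (haT' _)), ?_, ?_⟩
    · rw [map_sub, map_smul, ha', pev_cn_succ, pev_cn_zero, smul_eq_mul, ← sub_mul]
      exact mul_ne_zero (sub_ne_zero.mpr hj) hc
    · rw [map_sub, map_smul, ha', pev_cn_succ, pev_cn_zero, smul_eq_mul, sub_self]
  have hnonT : ∀ (f : A →ₐ[ℂ] ℂ) (c : ℂ), c ≠ 0 → ∃ x ∈ T, pev f c x ≠ 0 := by
    intro f c hc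
    exact ⟨_, hX, by rw [pev_X]; exact hc⟩
  have hη : ∑ j, y₀ j • a' j =
      Polynomial.C (∑ j, y₀ j • (Fin.cons 1 t : Fin (n + 1) → A) j) * Polynomial.X := by
    rw [map_sum, Finset.sum_mul]
    refine Finset.sum_congr rfl fun j _ => ?_
    rw [ha', cn, ← smul_mul_assoc, Polynomial.smul_C]
  have g1 : ∀ s, finrank ℂ ↥(T ^ s) ≤ q * s + c := by
    intro s
    rw [hTa']
    exact (finrank_span_cn_pow_le hF htF s).trans (hgrow s)
  -- the coordinates with respect to the basis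
  have hpcc : ∀ i, p i = ∑ l, ε i (a'' l) • cc l := by
    intro i
    funext j
    rw [← hεa i j, hacc j, map_sum, Finset.sum_apply]
    refine Finset.sum_congr rfl fun l _ => ?_
    rw [map_smul, Pi.smul_apply, smul_eq_mul, smul_eq_mul, mul_comm]
  -- the coordinate ring
  set b : Fin m → MvPolynomial (Fin (n + 1)) ℂ ⧸ I := fun l => Ideal.Quotient.mk I (lf (cc l))
    with hb
  have hbli : LinearIndependent ℂ b := by
    rw [Fintype.linearIndependent_iff]
    intro s hs
    rw [hb] at hs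
    simp only at hs
    rw [c1_mk_sum, Ideal.Quotient.eq_zero_iff_mem] at hs
    have h1 : ∑ l, s l • cc l = 0 := by
      by_contra hcon
      exact hnd _ hcon hs
    intro j
    rw [hccli s h1]
    rfl
  have hBands : ∀ i, Bands b (∑ l, ε i (a'' l) • b l) := by
    intro i
    have h1 : ∑ l, ε i (a'' l) • b l = Ideal.Quotient.mk I (lf (p i)) := by
      rw [hb]
      simp only
      rw [c1_mk_sum, ← hpcc i]
    rw [h1]
    exact bands_quot hI (hnd _ (hp0 i)) (hred i) cc
  rw [← hspan''] at g1 hsepT hnonT haT'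
  obtain ⟨Pb, hPb, hmain⟩ := hasQ_abstract a'' hli g1 (fun l => pev (τ l) 1)
    (fun l => hnonT _ _ one_ne_zero)
    (fun l m hlm => hsepT _ _ _ _ one_ne_zero one_ne_zero (hτ l m hlm))
    (∑ j, y₀ j • a' j)
    (Submodule.sum_mem _ fun j _ => Submodule.smul_mem _ _ (haT' j))
    (by
      rw [hη]
      exact mul_ne_zero (Polynomial.C_ne_zero.mpr hy₀ne) Polynomial.X_ne_zero)
    (fun l => by
      rw [hη, map_mul, pev_C, pev_X, mul_one]
      exact hy₀ l) ε (fun l => hnonT _ _ (h0 _))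
    (fun l m hlm => hsepT _ _ _ _ (h0 _) (h0 _) (hε'sep l m hlm)) hkq b hbli hBands
  have hT2 : FiniteDimensional ℂ (Submodule.span ℂ (Set.range a'')) :=
    FiniteDimensional.span_of_finite ℂ (Set.finite_range a'')
  refine ⟨m, cc, fun i l => ε i (a'' l), Pb, hpcc, fun v hv => ?_, fun l h1 => ?_, fun h1 => hPb ?_,
    hmain⟩
  · have h1 : ∑ l, v l • a'' l = 0 := by
      refine eq_zero_of_vanish (Submodule.span ℂ (Set.range a'')) g1 ε (fun l => hnonT _ _ (h0 _))
        (fun l m hlm => hsepT _ _ _ _ (h0 _) (h0 _) (hε'sep l m hlm)) hkq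
        (Submodule.sum_mem _ fun l _ => Submodule.smul_mem _ _ (Submodule.subset_span ⟨l, rfl⟩))
        fun i => ?_
      rw [map_sum]
      have h2 := hv i
      unfold Pool.Agent.H67T.lin at h2
      rw [← h2]
      refine Finset.sum_congr rfl fun l _ => ?_
      rw [map_smul, smul_eq_mul, mul_comm]
    funext l
    exact Fintype.linearIndependent_iff.mp hli v h1 l
  · have h2 : (Pi.single l 1 : Fin m → ℂ) = 0 := by
      apply hccli
      rw [Finset.sum_eq_single l]
      · rw [h1, smul_zero]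
      · intro l' _ hl'
        rw [Pi.single_eq_of_ne hl', zero_smul]
      · intro hl'
        exact absurd (Finset.mem_univ l) hl'
    have h3 := congrFun h2 l
    rw [Pi.single_eq_same, Pi.zero_apply] at h3
    exact one_ne_zero h3
  · have h2 : Ideal.Quotient.mkₐ ℂ I (aeval (fun l => lf (cc l)) Pb) = aeval b Pb := by
      rw [comp_aeval_apply]
      rfl
    rw [← h2]
    exact Ideal.Quotient.eq_zero_iff_mem.mpr h1

end Pool.Agent.H53K
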