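import Pool.Agent.Lib.H53K.KD
import Pool.Agent.Lib.H67T.CS

set_option autoImplicit false

/-!
H53K, CHUNK C1a: an element of `T` with more than `q` zeros is zero.
-/

open MvPolynomial Module Real MeasureTheory
open Pool.Agent.H89.Sect Pool.Agent.H89.Arr
open Pool.Agent.H89.GCurve

namespace Pool.Agent.H53K

open Pool.Agent.H67T Pool.Agent.H53S

attribute [local instance] MvPolynomial.gradedAlgebra

/-- CHUNK C1a (S/M).  PROOF.  Suppose `x ≠ 0`.  For `s + 1 ≥ k`: multiplication by `x` is injective on `T ^ s` (`A` is a domain) with image in `T ^ (s + 1)`, on which all `ε i` vanish.  The linear map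
`T ^ (s + 1) → (Fin k → ℂ)`, `a ↦ (ε i a)_i` is onto (`exists_interp`, Lib/H89/GradedCurve.lean, used as in `Setup.exists_eval`, Lib/H67T/Core.lean), its kernel contains `x T ^ s`, so
`finrank (T ^ s) + k ≤ finrank (T ^ (s + 1))`.  By induction `finrank (T ^ (k + j)) ≥ j * k`, but `hgrow` gives `finrank (T ^ (k + j)) ≤ q (k + j) + c`, a contradiction for `j = q * k + c + 1`
(`j k ≥ j (q + 1) = j q + j`). -/
theorem eq_zero_of_vanish {A : Type*} [CommRing A] [IsDomain A] [Algebra ℂ A] {k q c : ℕ} (T : Submodule ℂ A)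
    [FiniteDimensional ℂ T] (hgrow : ∀ s, finrank ℂ ↥(T ^ s) ≤ q * s + c)
    (ε : Fin k → A →ₐ[ℂ] ℂ) (hε0 : ∀ l, ∃ g ∈ T, ε l g ≠ 0)
    (hεsep : ∀ l m, l ≠ m → ∃ g ∈ T, ε l g ≠ 0 ∧ ε m g = 0) (hkq : q < k)
    {x : A} (hx : x ∈ T) (h : ∀ i, ε i x = 0) : x = 0 := by
  by_contra hx0
  have hfin : ∀ s : ℕ, FiniteDimensional ℂ ↥(T ^ s) := by
    intro s
    rw [← Submodule.fg_iff_finiteDimensional]
    exact Submodule.FG.pow (Submodule.fg_iff_finiteDimensional T |>.mpr inferInstance) s
  have hstep : ∀ s : ℕ, k ≤ s + 2 → finrank ℂ ↥(T ^ s) + k ≤ finrank ℂ ↥(T ^ (s + 1)) := by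
    intro s hs
    have := hfin s
    have := hfin (s + 1)
    let φ : ↥(T ^ (s + 1)) →ₗ[ℂ] (Fin k → ℂ) :=
      LinearMap.pi fun i => (ε i).toLinearMap ∘ₗ (T ^ (s + 1)).subtype
    have hφ : ∀ (a : ↥(T ^ (s + 1))) (i : Fin k), φ a i = ε i (a : A) := fun a i => rfl
    have hsurj : LinearMap.range φ = ⊤ := by
      rw [eq_top_iff, ← (Pi.basisFun ℂ (Fin k)).span_eq, Submodule.span_le]
      rintro _ ⟨l, rfl⟩
      obtain ⟨a, ha, h1, h2⟩ := exists_interp T ε hε0 hεsep (s := s + 1) (by simpa using hs) l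
      refine ⟨⟨a, ha⟩, ?_⟩
      funext m
      rw [hφ, Pi.basisFun_apply]
      rcases eq_or_ne m l with rfl | hm
      · rw [Pi.single_eq_same]; exact h1
      · rw [Pi.single_eq_of_ne hm]; exact h2 m hm
    let ψ : ↥(T ^ s) →ₗ[ℂ] ↥(LinearMap.ker φ) :=
      LinearMap.codRestrict (LinearMap.ker φ)
        (LinearMap.codRestrict (T ^ (s + 1)) (LinearMap.mulLeft ℂ x ∘ₗ (T ^ s).subtype) (by
          intro a
          rw [pow_succ']
          exact Submodule.mul_mem_mul hx a.2)) (by
        intro a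
        rw [LinearMap.mem_ker]
        funext i
        rw [hφ]
        show ε i (x * (a : A)) = 0
        rw [map_mul, h i, zero_mul])
    have hψ : Function.Injective ψ := by
      intro a b hab
      have h1 : x * (a : A) = x * (b : A) := congrArg (fun t => ((t : ↥(LinearMap.ker φ)) : A)) hab
      exact Subtype.ext (mul_left_cancel₀ hx0 h1)
    have h1 := LinearMap.finrank_le_finrank_of_injective hψ
    have h2 := LinearMap.finrank_range_add_finrank_ker φ
    rw [hsurj, finrank_top, Module.finrank_fin_fun] at h2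
    omega
  have hall : ∀ j : ℕ, j * k ≤ finrank ℂ ↥(T ^ (k + j)) := by
    intro j
    induction j with
    | zero => simp
    | succ j ih =>
      have h1 := hstep (k + j) (by omega)
      have h2 : (j + 1) * k = j * k + k := by ring
      rw [h2]
      show j * k + k ≤ finrank ℂ ↥(T ^ (k + j + 1))
      omega
  have h1 := hall (q * k + c + 1)
  have h2 := hgrow (k + (q * k + c + 1))
  have h3 : (q * k + c + 1) * (q + 1) ≤ (q * k + c + 1) * k := Nat.mul_le_mul_left _ hkq
  have h4 := (h3.trans h1).trans h2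
  have e1 : (q * k + c + 1) * (q + 1) = q * (k + (q * k + c + 1)) + c + 1 := by ring
  omega

end Pool.Agent.H53K
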