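import Pool.Agent.Lib.H53K.KD
import Pool.Agent.Lib.H67T.GG1
import Pool.Agent.Lib.H67T.NB
import Pool.Agent.Lib.H67T.NSE
import Pool.Agent.Lib.H67T.NM2

set_option autoImplicit false

/-!
H53K, CHUNK N2: the end of the Nevanlinna argument.
-/

open MvPolynomial Module Real MeasureTheory
open Pool.Agent.H89.Sect Pool.Agent.H89.Arr

namespace Pool.Agent.H53K

open Pool.Agent.H67T Pool.Agent.H53S

attribute [local instance] MvPolynomial.gradedAlgebra

/-- CHUNK N2 (M).  PROOF.  Suppose the contrary.  `T r = max K (chi v r)` with `K = max 1 |chi v 1|`, monotone on `[1, ∞)` (`chi_mono`), `borel`: `E` of finite measure with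
`T (r + 1 / T r) ≤ 2 T r` off `E`; `err_le`: `err v r (r + 1 / T r) ≤ 5 (log T r + log r)` (all as in the proof of `smtR`, Lib/H53S/S2.lean).  So for `r ≥ 2`, `r ∉ E`:
`chi v r ≤ C (5 log (T r) + 5 log r)`; `log T ≤ δ T - log δ` with `5 C δ ≤ 1 / 2`, `T ≤ chi v r + 2 K`: `(1 / 2) chi v r ≤ 5 C log r + const`.  With `hlow`:
`(c / 2) r ≤ 5 C log r + const`, which fails for some `r ≥ 2`, `r ∉ E` by `gg1_large`. -/
theorem chi_absurd {m : ℕ} {v : ℂ → Fin m → ℂ} (hv : IsHol v) {C c K : ℝ} (hC : 0 ≤ C) (hc : 0 < c)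
    (hup : ∀ r R : ℝ, 1 ≤ r → r < R → chi v r ≤ C * err v r R)
    (hlow : ∀ r : ℝ, 1 ≤ r → c * r - K ≤ chi v r) : False := by
  obtain ⟨K₀, hK₀⟩ : ∃ K₀ : ℝ, K₀ = max 1 |chi v 1| := ⟨_, rfl⟩
  have hK1 : 1 ≤ K₀ := hK₀ ▸ le_max_left _ _
  have hlow' : ∀ r : ℝ, 1 ≤ r → -K₀ ≤ chi v r := by
    intro r hr
    have h1 := chi_mono hv (r := 1) (R := r) one_pos hr
    have h2 := neg_abs_le (chi v 1)
    have h3 : |chi v 1| ≤ K₀ := hK₀ ▸ le_max_right _ _
    linarith
  set T : ℝ → ℝ := fun r => max K₀ (chi v r) with hT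
  have hTmono : MonotoneOn T (Set.Ici 1) := by
    intro a ha b hb hab
    exact max_le_max le_rfl (chi_mono hv (lt_of_lt_of_le one_pos ha) hab)
  have hT1 : ∀ r, 1 ≤ r → 1 ≤ T r := fun r _ => hK1.trans (le_max_left _ _)
  obtain ⟨E, hEm, hEv, hE⟩ := borel hTmono hT1
  obtain ⟨δ, hδ⟩ : ∃ δ : ℝ, δ = 1 / (2 * (5 * C + 1)) := ⟨_, rfl⟩
  have hδpos : 0 < δ := by rw [hδ]; positivity
  have hδ2 : 5 * C * δ ≤ 1 / 2 := by
    rw [hδ, mul_one_div, div_le_iff₀ (by positivity)]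
    linarith
  obtain ⟨r, hr, -, hrE, hlarge⟩ := gg1_large (lt_of_le_of_lt hEv (by simp)) 2 c (10 * C)
    (2 * K₀ + 10 * C * |log δ| + K) hc
  have hr1 : 1 ≤ r := by linarith
  have hTr := hT1 r hr1
  have hTpos : 0 < T r := by linarith
  have hR := hE r hr1 hrE
  have hpos : 0 < 1 / T r := by positivity
  have hR1 : 1 ≤ r + 1 / T r := by linarith
  have hrR : r < r + 1 / T r := by linarith
  have habs : |chi v (r + 1 / T r)| ≤ 2 * T r := by
    rw [abs_le]
    constructor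
    · have h1 := hlow' _ hR1
      have h2 : K₀ ≤ T r := le_max_left _ _
      linarith
    · exact le_trans (le_max_right _ _) hR
  have herr := err_le (y := v) hr hTr habs
  have hcT : T r - 2 * K₀ ≤ chi v r := by
    have h1 := hlow' r hr1
    have h2 : T r = max K₀ (chi v r) := rfl
    rcases le_total K₀ (chi v r) with h3 | h3
    · rw [h2, max_eq_right h3]; linarith
    · rw [h2, max_eq_left h3]; linarith
  have hmain := hup r (r + 1 / T r) hr1 hrR
  have hl := hlow r hr1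
  have e3 : C * err v r (r + 1 / T r) ≤ C * (5 * (log (T r) + log r)) :=
    mul_le_mul_of_nonneg_left herr hC
  have e4 : log (T r) ≤ δ * T r - log δ := by
    have h1 := Real.log_le_sub_one_of_pos (mul_pos hδpos hTpos)
    rw [Real.log_mul hδpos.ne' hTpos.ne'] at h1
    linarith
  have e5 : 5 * C * log (T r) ≤ 5 * C * (δ * T r - log δ) :=
    mul_le_mul_of_nonneg_left e4 (by positivity)
  have e7 : 5 * C * δ * T r ≤ 1 / 2 * T r := mul_le_mul_of_nonneg_right hδ2 hTpos.le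
  have e8 : -(5 * C * log δ) ≤ 5 * C * |log δ| := by
    have h9 := mul_le_mul_of_nonneg_left (neg_abs_le (log δ)) (by positivity : 0 ≤ 5 * C)
    linarith
  linarith

end Pool.Agent.H53K
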