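import Pool.Agent.Lib.H53K.N1
import Pool.Agent.Lib.H53K.N2
import Pool.Agent.Lib.H67T.NS2
import Pool.Agent.Lib.H67T.GH1

set_option autoImplicit false

/-!
H53K, CHUNK N3: the reduced curve is constant.
-/

open MvPolynomial Module Real MeasureTheory
open Pool.Agent.H89.Sect Pool.Agent.H89.Arr

namespace Pool.Agent.H53K

open Pool.Agent.H67T Pool.Agent.H53S

attribute [local instance] MvPolynomial.gradedAlgebra

/-- CHUNK N3 (M).  PROOF.  Suppose not: `hnc : ∃ z w, ∀ t, y w ≠ t • y z`.  Let `v z = c • y (exp z)`, `IsHol v` (`c ≠ 0`).  `lin (p i) (v z) = c * lin (p i) (y (exp z))` is not identically `0` (`exp` is onto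
`ℂ \ {0}` and `{0}ᶜ` is dense, continuity), the same for the coordinates.  `OrdDiv μ (lin (p i) (v ·))`: `analyticOrderAt_comp_of_deriv_ne_zero` (see Lib/H53S/G1 `hord2`), the constant `c ≠ 0` does not change orders.
`curve_smt` (Lib/H67T/NS2) for `v`: `(k - 2 q) chi v r ≤ ∑ N1 + C err v r R`; `n1_le`: `∑ N1 ≤ (k chi v r + K') / 2`; so `(k - 4 q) / 2 * chi v r ≤ K' / 2 + C err ≤ C' err` (`NS2_err_ge`: `1 ≤ err`), and
`chi v r ≤ 2 C'' err` because `(k - 4 q) / 2 ≥ 1 / 2` (if `chi v r ≤ 0` trivial).  Lower bound: `chi_exp_ge` (Lib/H67T/GH1) for the curve `fun z => c • y z` (nonconstant by `hnc`).  `chi_absurd`. -/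
theorem const_of_hasQ {m k q μ : ℕ} (hμ : 2 ≤ μ) (hkq : 4 * q < k) {p : Fin k → Fin m → ℂ} {y : ℂ → Fin m → ℂ}
    (hy : IsHol y) (hp : ∀ i, ∃ z, lin (p i) (y z) ≠ 0) (hyc : ∀ j, ∃ z, y z j ≠ 0)
    (hdiv : ∀ i, OrdDiv μ (fun z => lin (p i) (y z))) {c : ℂ} (hc : c ≠ 0)
    (h : HasQ p q (fun z => c • y (Complex.exp z))) (z w : ℂ) : ∃ t : ℂ, y w = t • y z := by
  classical
  by_contra hcon
  push Not at hcon
  set v : ℂ → Fin m → ℂ := fun z => c • y (Complex.exp z) with hv
  have hvh : IsHol v := by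
    refine ⟨fun j => ?_, fun z => smul_ne_zero hc (hy.ne_zero _)⟩
    have h1 : Differentiable ℂ fun z => y (Complex.exp z) j := (hy.diff j).comp Complex.differentiable_exp
    exact h1.const_mul c
  have hlin : ∀ i z, lin (p i) (v z) = c * lin (p i) (y (Complex.exp z)) := by
    intro i z
    unfold H67T.lin
    rw [Finset.mul_sum]
    refine Finset.sum_congr rfl fun j _ => ?_
    simp only [hv, Pi.smul_apply, smul_eq_mul]
    ring
  have hdense : ∀ f : ℂ → ℂ, Continuous f → (∃ z, f z ≠ 0) → ∃ z, f (Complex.exp z) ≠ 0 := by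
    intro f hf hne
    by_contra hno
    push Not at hno
    obtain ⟨z₁, hz₁⟩ := hne
    apply hz₁
    have h1 : f = fun _ => 0 := by
      apply hf.ext_on (dense_compl_singleton (0 : ℂ)) continuous_const
      intro x hx
      have hx0 : x ≠ 0 := hx
      have := hno (Complex.log x)
      rwa [Complex.exp_log hx0] at this
    exact congrFun h1 z₁
  have hld : ∀ i, Differentiable ℂ fun z => lin (p i) (y z) := fun i => NS2_lin_diff (p i) hy.diff
  have hp' : ∀ i, ∃ z, lin (p i) (v z) ≠ 0 := by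
    intro i
    obtain ⟨z₁, hz₁⟩ := hdense (fun z => lin (p i) (y z)) (hld i).continuous (hp i)
    refine ⟨z₁, ?_⟩
    rw [hlin]
    exact mul_ne_zero hc hz₁
  have hv' : ∀ j, ∃ z, v z j ≠ 0 := by
    intro j
    obtain ⟨z₁, hz₁⟩ := hdense (fun z => y z j) (hy.diff j).continuous (hyc j)
    exact ⟨z₁, mul_ne_zero hc hz₁⟩
  have hdiv' : ∀ i, OrdDiv μ (fun z => lin (p i) (v z)) := by
    intro i z₁
    obtain ⟨e, he⟩ := hdiv i (Complex.exp z₁)
    refine ⟨e, ?_⟩
    rw [← he]
    have h1 := analyticOrderAt_comp_of_deriv_ne_zero (f := fun z => lin (p i) (y z))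
      (Complex.differentiable_exp.analyticAt z₁) (by rw [Complex.deriv_exp]; exact Complex.exp_ne_zero z₁)
    have h2 : (fun z => lin (p i) (y z)) ∘ Complex.exp = fun z => lin (p i) (y (Complex.exp z)) := rfl
    rw [h2] at h1
    rw [← h1]
    have h3 : (fun z => lin (p i) (v z)) = (fun _ => c) * fun z => lin (p i) (y (Complex.exp z)) := by
      funext x
      exact hlin i x
    have h4 : analyticOrderAt (fun _ : ℂ => c) z₁ = 0 :=
      analyticAt_const.analyticOrderAt_eq_zero.2 hc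
    have h6 : Differentiable ℂ fun z => lin (p i) (y (Complex.exp z)) := (hld i).comp Complex.differentiable_exp
    have h5 := analyticOrderAt_mul (f := fun _ : ℂ => c) (g := fun z => lin (p i) (y (Complex.exp z)))
      analyticAt_const (h6.analyticAt z₁)
    rw [h3, h5, h4, zero_add]
  obtain ⟨C, hC, hsmt⟩ := curve_smt hvh hp' hv' h
  choose K hK using fun i => n1_le hμ hvh (hp' i) (hdiv' i)
  have hkq' : 4 * (q : ℝ) + 1 ≤ k := by exact_mod_cast hkq
  have hS' : 0 ≤ ∑ i, |K i| := Finset.sum_nonneg fun i _ => abs_nonneg _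
  have hup : ∀ r R : ℝ, 1 ≤ r → r < R → chi v r ≤ (∑ i, |K i| + 2 * C) * err v r R := by
    intro r R hr hR
    have he1 := NS2_err_ge v r R
    have h1 := hsmt r R hr hR
    have h2 : ∑ i, N1 (fun z => lin (p i) (v z)) r ≤ ∑ i, (chi v r + |K i|) / 2 := by
      refine Finset.sum_le_sum fun i _ => ?_
      have h3 := hK i r hr
      have h4 := le_abs_self (K i)
      linarith
    have h5 : ∑ i : Fin k, (chi v r + |K i|) / 2 = (k * chi v r + ∑ i, |K i|) / 2 := by
      rw [← Finset.sum_div, Finset.sum_add_distrib, Finset.sum_const, Finset.card_univ, Fintype.card_fin,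
        nsmul_eq_mul]
    rw [h5] at h2
    have h6 : ∑ i, |K i| ≤ (∑ i, |K i|) * err v r R := le_mul_of_one_le_right hS' he1
    rcases le_total (chi v r) 0 with hneg | hpos
    · have : 0 ≤ (∑ i, |K i| + 2 * C) * err v r R := by positivity
      linarith
    · have h7 : (4 * (q : ℝ) + 1) * chi v r ≤ k * chi v r := mul_le_mul_of_nonneg_right hkq' hpos
      nlinarith
  obtain ⟨c₀, K₀, hc₀, hlow⟩ := chi_exp_ge (u := fun z => c • y z)
    ⟨fun j => (hy.diff j).const_mul c, fun z => smul_ne_zero hc (hy.ne_zero _)⟩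
    ⟨z, w, fun t ht => hcon t (by
      have h1 : c • y w = c • (t • y z) := by
        rw [smul_comm c t (y z)]
        exact ht
      exact smul_right_injective _ hc h1)⟩
  exact chi_absurd hvh (by positivity) hc₀ hup hlow

end Pool.Agent.H53K
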