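import Pool.Agent.Lib.H53K.KD
import Pool.Agent.Lib.H24V.A7

set_option autoImplicit false

/-!
H53K, CHUNK W2a: entire quotients (from Lib/H24V/A7).
-/

open MvPolynomial Module Real MeasureTheory
open Pool.Agent.H89.Sect Pool.Agent.H89.Arr

namespace Pool.Agent.H53K

open Pool.Agent.H67T Pool.Agent.H53S

attribute [local instance] MvPolynomial.gradedAlgebra

/-- An entire function is divisible by another one if its orders are not smaller. -/
theorem exists_div {f g : ℂ → ℂ} (hf : Differentiable ℂ f) (hg : Differentiable ℂ g) (hg0 : ∃ z, g z ≠ 0)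
    (h : ∀ z, analyticOrderAt g z ≤ analyticOrderAt f z) :
    ∃ q : ℂ → ℂ, Differentiable ℂ q ∧ ∀ z, f z = g z * q z := by
  obtain ⟨z₀, hz₀⟩ := hg0
  have hb : (⟨g, hg⟩ : Pool.Agent.H24V.EF) ≠ 0 := by
    intro h0
    apply hz₀
    have h1 := congrArg (fun F : Pool.Agent.H24V.EF => F.1 z₀) h0
    exact h1
  obtain ⟨q, hq⟩ := Pool.Agent.H24V.dvd_of_order (a := ⟨f, hf⟩) (β := ⟨g, hg⟩) hb h
  refine ⟨q.1, q.2, fun z => ?_⟩
  have h2 := congrArg (fun F : Pool.Agent.H24V.EF => F.1 z) hq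
  exact h2

end Pool.Agent.H53K
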