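import Pool.Agent.Lib.H53K.W1
import Pool.Agent.Lib.H53K.W2a

set_option autoImplicit false

/-!
H53K, CHUNK W2: the greatest common divisor of entire functions.
-/

open MvPolynomial Module Real MeasureTheory
open Pool.Agent.H89.Sect Pool.Agent.H89.Arr

namespace Pool.Agent.H53K

open Pool.Agent.H67T Pool.Agent.H53S

attribute [local instance] MvPolynomial.gradedAlgebra

/-- CHUNK W2 (S/M).  PROOF.  Let `h z₀ l₀ ≠ 0`.  `c a := (⨅ l, analyticOrderAt (fun z => h z l) a).toNat`; the infimum is finite because the order of `h · l₀` is finite everywhere (`NJ1_ne_top`), so it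
is `c a` as `ℕ∞`, attained for some `l`.  `c a ≠ 0` implies `h a l₀ = 0`, and the zeros of `h · l₀` in a closed ball are finite (see NJ4 / `NF` in Lib/H67T or
`AnalyticOnNhd.codiscrete...`, `IsCompact` + isolated zeros).  `exists_entire` gives `g` with `analyticOrderAt g a = c a`; `g` is not identically `0` (its order at `0` is not `⊤`).
`exists_div` gives `y l` with `h z l = g z * y z l`.  If `y a = 0`, all `analyticOrderAt (h · l) a = c a + analyticOrderAt (y · l) a > c a` (`analyticOrderAt_mul`, order `≥ 1` at a zero), contradiction. -/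
theorem exists_reduced {m : ℕ} {h : ℂ → Fin m → ℂ} (hd : ∀ l, Differentiable ℂ fun z => h z l) (h0 : ∃ z, h z ≠ 0) :
    ∃ (g : ℂ → ℂ) (y : ℂ → Fin m → ℂ), Differentiable ℂ g ∧ (∃ z, g z ≠ 0) ∧ IsHol y ∧ ∀ z, h z = g z • y z := by
  classical
  obtain ⟨z₀, hz₀⟩ := h0
  obtain ⟨l₀, hl₀⟩ := Function.ne_iff.1 hz₀
  have hl₀' : h z₀ l₀ ≠ 0 := hl₀
  have hft : ∀ a, analyticOrderAt (fun z => h z l₀) a ≠ ⊤ := NJ1_ne_top (hd l₀) ⟨z₀, hl₀'⟩
  have hCle : ∀ a l, (⨅ l, analyticOrderAt (fun z => h z l) a) ≤ analyticOrderAt (fun z => h z l) a :=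
    fun a l => iInf_le _ l
  have hCt : ∀ a, (⨅ l, analyticOrderAt (fun z => h z l) a) ≠ ⊤ := fun a =>
    ne_top_of_le_ne_top (hft a) (hCle a l₀)
  have hCatt : ∀ a, ∃ l, analyticOrderAt (fun z => h z l) a = ⨅ l, analyticOrderAt (fun z => h z l) a := by
    intro a
    have : Nonempty (Fin m) := ⟨l₀⟩
    exact exists_eq_ciInf_of_finite (f := fun l => analyticOrderAt (fun z => h z l) a)
  obtain ⟨c, hcC⟩ : ∃ c : ℂ → ℕ, ∀ a, (c a : ℕ∞) = ⨅ l, analyticOrderAt (fun z => h z l) a :=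
    ⟨fun a => (⨅ l, analyticOrderAt (fun z => h z l) a).toNat, fun a => ENat.natCast_toNat (hCt a)⟩
  have hfin : ∀ r : ℝ, {a : ℂ | ‖a‖ ≤ r ∧ c a ≠ 0}.Finite := by
    intro r
    refine (NJ1_fin (hd l₀) ⟨z₀, hl₀'⟩ r).subset ?_
    rintro a ⟨ha, hca⟩
    refine ⟨ha, ?_⟩
    by_contra hne
    have h1 : analyticOrderAt (fun z => h z l₀) a = 0 :=
      ((hd l₀).analyticAt a).analyticOrderAt_eq_zero.2 hne
    have h2 := hCle a l₀
    rw [h1, ← hcC a] at h2
    have h3 : (c a : ℕ∞) = 0 := le_antisymm h2 zero_le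
    exact hca (by exact_mod_cast h3)
  obtain ⟨g, hg, hgc⟩ := exists_entire c hfin
  have hg0 : ∃ z, g z ≠ 0 := by
    by_contra hcon
    push Not at hcon
    have h1 : analyticOrderAt g 0 = ⊤ := by
      rw [analyticOrderAt_eq_top]
      exact Filter.Eventually.of_forall hcon
    rw [hgc 0] at h1
    exact ENat.natCast_ne_top _ h1
  have hdiv : ∀ l, ∃ q : ℂ → ℂ, Differentiable ℂ q ∧ ∀ z, h z l = g z * q z := fun l =>
    exists_div (hd l) hg hg0 (fun z => by rw [hgc, hcC]; exact hCle z l)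
  choose y hy hhy using hdiv
  refine ⟨g, fun z l => y l z, hg, hg0, ⟨fun l => hy l, ?_⟩, ?_⟩
  · intro a ha
    obtain ⟨l, hl⟩ := hCatt a
    have h1 : y l a = 0 := congrFun ha l
    have h2 : analyticOrderAt (fun z => h z l) a = analyticOrderAt g a + analyticOrderAt (y l) a := by
      have h4 : (fun z => h z l) = g * y l := funext (hhy l)
      rw [h4]
      exact analyticOrderAt_mul (hg.analyticAt a) ((hy l).analyticAt a)
    have h3 : analyticOrderAt (y l) a ≠ 0 := ((hy l).analyticAt a).analyticOrderAt_ne_zero.2 h1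
    rw [hl, hgc, hcC] at h2
    have h5 : (⨅ l, analyticOrderAt (fun z => h z l) a) + 0 =
        (⨅ l, analyticOrderAt (fun z => h z l) a) + analyticOrderAt (y l) a := by
      rw [add_zero]; exact h2
    exact h3 ((ENat.addLECancellable_of_ne_top (hCt a)).inj.1 h5).symm
  · intro z
    funext l
    simp [hhy l z]

end Pool.Agent.H53K
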