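import Pool.Agent.Lib.H53K.KD

set_option autoImplicit false

/-!
H53K, CHUNK W3: divisibility of the orders.
-/

open MvPolynomial Module Real MeasureTheory
open Pool.Agent.H89.Sect Pool.Agent.H89.Arr

namespace Pool.Agent.H53K

open Pool.Agent.H67T Pool.Agent.H53S

attribute [local instance] MvPolynomial.gradedAlgebra

/-- CHUNK W3 (S).  PROOF.  Fix `z`.  `y z ≠ 0`, so by `hpb` some `lin (pb i₀) (y z) ≠ 0`: the function `lin (pb i₀) (y ·)` has order `0` at `z`.  `lin (pb i) (h w) = g w * lin (pb i) (y w)`, so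
(`analyticOrderAt_mul`) `ord (lin pb i h) = ord g + ord (lin pb i y)`; for `i₀`: `ord g = μ * e₀`, finite (`g` is not identically `0`, `NJ1_ne_top`).  For `i`: `μ * e = μ * e₀ + x`; if `x = ⊤` then `x = μ * ⊤`
(`μ ≥ 1`); otherwise `e` is finite and `x = μ * (e - e₀)`. -/
theorem ordDiv_reduced {m k μ : ℕ} (hμ : 1 ≤ μ) {pb : Fin k → Fin m → ℂ} (hpb : ∀ v : Fin m → ℂ, (∀ i, lin (pb i) v = 0) → v = 0)
    {h y : ℂ → Fin m → ℂ} {g : ℂ → ℂ} (hg : Differentiable ℂ g) (hg0 : ∃ z, g z ≠ 0) (hy : IsHol y)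
    (hgy : ∀ z, h z = g z • y z) (hdiv : ∀ i, OrdDiv μ (fun z => lin (pb i) (h z))) (i : Fin k) :
    OrdDiv μ (fun z => lin (pb i) (y z)) := by
  classical
  have hlin : ∀ (c : Fin m → ℂ) (z : ℂ), lin c (h z) = g z * lin c (y z) := by
    intro c z
    rw [hgy z]
    simp only [H67T.lin, Pi.smul_apply, smul_eq_mul, Finset.mul_sum]
    refine Finset.sum_congr rfl fun j _ => ?_
    ring
  have hdy : ∀ (c : Fin m → ℂ), Differentiable ℂ (fun z => lin c (y z)) := by
    intro c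
    simp only [H67T.lin]
    exact Differentiable.fun_sum fun j _ => (hy.diff j).const_mul (c j)
  have hmul : ∀ (c : Fin m → ℂ) (z : ℂ), analyticOrderAt (fun w => lin c (h w)) z =
      analyticOrderAt g z + analyticOrderAt (fun w => lin c (y w)) z := by
    intro c z
    have h1 : (fun w => lin c (h w)) = g * (fun w => lin c (y w)) := by
      funext w
      exact hlin c w
    rw [h1]
    exact analyticOrderAt_mul (hg.analyticAt z) ((hdy c).analyticAt z)
  intro z
  obtain ⟨i₀, hi₀⟩ : ∃ i₀, lin (pb i₀) (y z) ≠ 0 := by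
    by_contra hcon
    push Not at hcon
    exact hy.ne_zero z (hpb (y z) hcon)
  have h0 : analyticOrderAt (fun w => lin (pb i₀) (y w)) z = 0 :=
    ((hdy (pb i₀)).analyticAt z).analyticOrderAt_eq_zero.2 hi₀
  obtain ⟨e₀, he₀⟩ := hdiv i₀ z
  rw [hmul, h0, add_zero] at he₀
  have hgtop : analyticOrderAt g z ≠ ⊤ := NJ1_ne_top hg hg0 z
  obtain ⟨e, he⟩ := hdiv i z
  rw [hmul, he₀] at he
  have hμ0 : (μ : ℕ∞) ≠ 0 := by
    intro h
    have h2 : μ = 0 := by exact_mod_cast h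
    omega
  rw [he₀] at hgtop
  have he₀top : e₀ ≠ ⊤ := by
    rintro rfl
    exact hgtop (ENat.mul_top hμ0)
  obtain ⟨a, rfl⟩ := ENat.ne_top_iff_exists.1 he₀top
  by_cases hx : analyticOrderAt (fun w => lin (pb i) (y w)) z = ⊤
  · exact ⟨⊤, by rw [hx, ENat.mul_top hμ0]⟩
  · obtain ⟨x, hx2⟩ := ENat.ne_top_iff_exists.1 hx
    rw [← hx2] at he ⊢
    have hetop : e ≠ ⊤ := by
      rintro rfl
      rw [ENat.mul_top hμ0] at he
      have h3 : ((μ * a + x : ℕ) : ℕ∞) = ⊤ := by push_cast; exact he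
      exact ENat.natCast_ne_top _ h3
    obtain ⟨b, rfl⟩ := ENat.ne_top_iff_exists.1 hetop
    have h4 : μ * a + x = μ * b := by exact_mod_cast he
    refine ⟨((b - a : ℕ) : ℕ∞), ?_⟩
    have h5 : x = μ * (b - a) := by
      rw [Nat.mul_sub]
      omega
    rw [h5]
    push_cast
    rfl

end Pool.Agent.H53K
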