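import Pool.Agent.Lib.H53K.C2
import Pool.Agent.Lib.H53K.N3
import Pool.Agent.Lib.H53K.W2
import Pool.Agent.Lib.H53K.W3

set_option autoImplicit false

/-!
H53K, CHUNK D1: two hyperplanes in one class.
-/

open MvPolynomial Module Real MeasureTheory
open Pool.Agent.H89.Sect Pool.Agent.H89.Arr

namespace Pool.Agent.H53K

open Pool.Agent.H67T Pool.Agent.H53S

attribute [local instance] MvPolynomial.gradedAlgebra

/-- CHUNK D1.  PROOF.  `K` = the `K₀` of `exists_curveK n 5 hn`.  For `U` take `k, d, κ, m, cc, pb, Pb` (`4 d < 5 d ≤ k`) and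
`P = aeval (fun l => lf (cc l)) Pb * (∏ l, lf (cc l)) * ∏ l, lf (p (κ l))`, not in `I` (prime; `hD.nondegenerate`, `p (κ l) ≠ 0` by `distinct` and `2 ≤ k`).
Let `y` be given, `P(y z) ≠ 0` for some `z`; by density (`dense_compl_singleton`, continuity) for some `z₁ ≠ 0`.  `h z = fun l => lin (cc l) (y z)` (`eval (y z) (lf c) = lin c (y z)`:
`c1_eval_lf`, Lib/H53S/C1), `h z₁ ≠ 0` (`0 < m` because `pb` spans and `p (κ l) ≠ 0`; or directly `lin (p (κ l)) (y z₁) = lin (pb l) (h z₁) ≠ 0`, `C0_lin_lin`, Lib/H53S/C0).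
`exists_reduced`: `h = g • ỹ`.  `OrdDiv μ (lin (pb l) (h ·))` because `lin (pb l) (h z) = lin (p (κ l)) (y z)`; `ordDiv_reduced`.  `c := g z₁ ≠ 0` (as `h z₁ ≠ 0`).  `v z = c • ỹ (exp z)`, `v (log z₁) = h z₁`
(`Complex.exp_log`), `eval (h z₁) Pb = eval (y z₁) (aeval (lf ∘ cc) Pb) ≠ 0` (see the end of `hasQ_coneR`), `IsHol v`: `HasQ pb d v` by `CurveOut.hasQ`.
`const_of_hasQ` (`lin (pb i) (ỹ z₁) ≠ 0`, `ỹ z₁ j ≠ 0` from `h z₁ = g z₁ • ỹ z₁` and `lin (p (κ i)) (y z₁) ≠ 0`, `lin (cc j) (y z₁) ≠ 0`): for all `z`: `ỹ z = t • ỹ z₁`, so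
`lin (p (κ i)) (y z) = g z * t * lin (pb i) (ỹ z₁)`; with `i = 0, 1` (`2 ≤ k`) and `c' = lin (pb 0) (ỹ z₁) / lin (pb 1) (ỹ z₁)`: the claim. -/
theorem two_hyper (n : ℕ) (hn : 1 ≤ n) : ∃ K : ℕ, ∀ (ι : Type) [Fintype ι] (p : ι → Fin (n + 1) → ℂ)
    (I : Ideal (MvPolynomial (Fin (n + 1)) ℂ)), DataR p I → ∀ U : Finset ι, K ≤ U.card →
    ∃ P : MvPolynomial (Fin (n + 1)) ℂ, P ∉ I ∧ ∀ y : ℂ → Fin (n + 1) → ℂ, IsHol y → (∃ z, eval (y z) P ≠ 0) →
      ∀ μ : ℕ, 2 ≤ μ → (∀ i ∈ U, OrdDiv μ (fun z => lin (p i) (y z))) →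
      ∃ i ∈ U, ∃ j ∈ U, i ≠ j ∧ ∃ c : ℂ, ∀ z, lin (p i) (y z) = c * lin (p j) (y z) := by
  classical
  obtain ⟨K, hK⟩ := exists_curveK n 5 hn
  refine ⟨K, fun ι _ p I hD U hU => ?_⟩
  obtain ⟨k, d, κ, hκ, hκU, hd1, hdk, hk2, m, cc, pb, Pb, hC⟩ := hK ι p I hD U hU
  have hI := hD.prime
  have hp0 : ∀ l, p (κ l) ≠ 0 := by
    intro l h0
    obtain ⟨l', hl'⟩ : ∃ l', l' ≠ l := by
      have : Nontrivial (Fin k) := Fin.nontrivial_iff_two_le.2 hk2
      exact exists_ne l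
    exact hD.distinct (κ l) (κ l') (fun h => hl' (hκ h).symm) 0 (by rw [h0, zero_smul])
  refine ⟨aeval (fun l => lf (cc l)) Pb * (∏ l, lf (cc l)) * ∏ l, lf (p (κ l)), ?_, ?_⟩
  · intro hmem
    rcases hI.mem_or_mem hmem with h1 | h1
    · rcases hI.mem_or_mem h1 with h2 | h2
      · exact hC.not_mem h2
      · obtain ⟨l, -, hl⟩ := (Ideal.IsPrime.prod_mem_iff (p := I)).1 h2
        exact hD.nondegenerate _ (hC.ne l) hl
    · obtain ⟨l, -, hl⟩ := (Ideal.IsPrime.prod_mem_iff (p := I)).1 h1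
      exact hD.nondegenerate _ (hp0 l) hl
  intro y hy hP μ hμ hdiv
  obtain ⟨z₁, hz₁0, hz₁⟩ : ∃ z₁ : ℂ, z₁ ≠ 0 ∧ eval (y z₁)
      (aeval (fun l => lf (cc l)) Pb * (∏ l, lf (cc l)) * ∏ l, lf (p (κ l))) ≠ 0 := by
    have hcont : Continuous fun z => eval (y z)
        (aeval (fun l => lf (cc l)) Pb * (∏ l, lf (cc l)) * ∏ l, lf (p (κ l))) :=
      (differentiable_eval hy.diff _).continuous
    obtain ⟨x, hx, hx'⟩ := (dense_compl_singleton (0 : ℂ)).exists_mem_open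
      (isOpen_ne_fun hcont continuous_const) hP
    exact ⟨x, hx, hx'⟩
  rw [map_mul, map_mul, map_prod, map_prod] at hz₁
  have hB : ∀ l, lin (cc l) (y z₁) ≠ 0 := by
    intro l
    rw [← c1_eval_lf]
    exact Finset.prod_ne_zero_iff.1 (right_ne_zero_of_mul (left_ne_zero_of_mul hz₁)) l
      (Finset.mem_univ l)
  have hCc : ∀ l, lin (p (κ l)) (y z₁) ≠ 0 := by
    intro l
    rw [← c1_eval_lf]
    exact Finset.prod_ne_zero_iff.1 (right_ne_zero_of_mul hz₁) l (Finset.mem_univ l)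
  obtain ⟨h, hh⟩ : ∃ h : ℂ → Fin m → ℂ, h = fun z l => lin (cc l) (y z) := ⟨_, rfl⟩
  have hlin : ∀ l z, lin (pb l) (h z) = lin (p (κ l)) (y z) := by
    intro l z
    have h1 := hC.eq l
    rw [h1, ← C0_lin_lin, hh]
  have hA : eval (h z₁) Pb ≠ 0 := by
    have h1 := left_ne_zero_of_mul (left_ne_zero_of_mul hz₁)
    have h2 : eval (y z₁) (aeval (fun l => lf (cc l)) Pb) = eval (h z₁) Pb := by
      rw [hh, MvPolynomial.aeval_def, MvPolynomial.hom_eval₂]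
      unfold MvPolynomial.eval
      simp only [coe_eval₂Hom]
      have h3 : ((eval₂Hom (RingHom.id ℂ) (y z₁)).comp (algebraMap ℂ (MvPolynomial (Fin (n + 1)) ℂ))) =
          RingHom.id ℂ := by
        ext z
        simp
      have h4 : (fun l => eval₂Hom (RingHom.id ℂ) (y z₁) (lf (cc l))) = fun l => lin (cc l) (y z₁) := by
        funext l
        exact c1_eval_lf _ _
      first
        | rw [h3, ← h4]; rfl
        | (rw [← h4]; congr 1)
    rw [h2] at h1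
    exact h1
  have hhd : ∀ l, Differentiable ℂ fun z => h z l := by
    intro l
    have h1 : (fun z => h z l) = fun z => eval (y z) (lf (cc l)) := by
      funext z
      rw [c1_eval_lf, hh]
    rw [h1]
    exact differentiable_eval hy.diff _
  have hk0 : 0 < k := by omega
  have hh0 : h z₁ ≠ 0 := by
    intro h0
    apply hCc ⟨0, hk0⟩
    rw [← hlin, h0]
    simp [Pool.Agent.H67T.lin]
  obtain ⟨g, yt, hg, hg0, hyt, hgy⟩ := exists_reduced hhd ⟨z₁, hh0⟩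
  have hdt := ordDiv_reduced (by omega : 1 ≤ μ) hC.span hg hg0 hyt hgy (fun i => by
    simpa only [hlin] using hdiv (κ i) (hκU i))
  have hc : g z₁ ≠ 0 := by
    intro h0
    apply hh0
    rw [hgy, h0, zero_smul]
  have hlins : ∀ (c : Fin m → ℂ) (t : ℂ) (v : Fin m → ℂ), lin c (t • v) = t * lin c v := by
    intro c t v
    simp only [Pool.Agent.H67T.lin, Pi.smul_apply, smul_eq_mul, Finset.mul_sum]
    exact Finset.sum_congr rfl fun j _ => by ring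
  have hlg : ∀ l z, lin (p (κ l)) (y z) = g z * lin (pb l) (yt z) := by
    intro l z
    rw [← hlin, hgy, hlins]
  have hv : IsHol fun z => g z₁ • yt (Complex.exp z) := by
    refine ⟨fun j => ?_, fun z => smul_ne_zero hc (hyt.ne_zero _)⟩
    have h1 : Differentiable ℂ fun z => yt (Complex.exp z) j := (hyt.diff j).comp Complex.differentiable_exp
    exact h1.const_mul (g z₁)
  have hQ : HasQ pb d fun z => g z₁ • yt (Complex.exp z) := by
    refine hC.hasQ _ hv ⟨Complex.log z₁, ?_⟩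
    rw [Complex.exp_log hz₁0, ← hgy]
    exact hA
  have hconst := const_of_hasQ hμ (by omega : 4 * d < k) hyt
    (fun i => ⟨z₁, fun h0 => hCc i (by rw [hlg, h0, mul_zero])⟩)
    (fun j => ⟨z₁, fun h0 => hB j (by
      have h1 := congrFun (hgy z₁) j
      rw [Pi.smul_apply, h0, smul_zero, hh] at h1
      exact h1)⟩) hdt hc hQ
  refine ⟨κ ⟨0, hk0⟩, hκU _, κ ⟨1, hk2⟩, hκU _, fun h0 => ?_,
    lin (pb ⟨0, hk0⟩) (yt z₁) / lin (pb ⟨1, hk2⟩) (yt z₁), fun z => ?_⟩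
  · have h1 := hκ h0
    simp at h1
  · obtain ⟨t, ht⟩ := hconst z₁ z
    have h1 : lin (pb ⟨1, hk2⟩) (yt z₁) ≠ 0 := fun h0 => hCc ⟨1, hk2⟩ (by rw [hlg, h0, mul_zero])
    rw [hlg, hlg, ht, hlins, hlins]
    field_simp

end Pool.Agent.H53K
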