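import Pool.Agent.Lib.H53K.D1
import Pool.Agent.Lib.H53S.V1
import Pool.Agent.Lib.H53S.W2
import Pool.Agent.Lib.H53S.W3b

set_option autoImplicit false

/-!
H53K, CHUNK D2: forms of one degree.
-/

open MvPolynomial Module Real MeasureTheory
open Pool.Agent.H89.Sect Pool.Agent.H89.Arr

namespace Pool.Agent.H53K

open Pool.Agent.H67T Pool.Agent.H53S

attribute [local instance] MvPolynomial.gradedAlgebra

private theorem D2_eval {m M : ℕ} (G : Fin M → MvPolynomial (Fin m) ℂ) (x : Fin m → ℂ)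
    (P : MvPolynomial (Fin M) ℂ) : eval x (aeval G P) = eval (fun l => eval x (G l)) P := by
  induction P using MvPolynomial.induction_on with
  | C a => simp [MvPolynomial.algebraMap_eq]
  | add p q hp hq => simp only [map_add, hp, hq]
  | mul_X p i hp => simp only [map_mul, hp, aeval_X, eval_X]

private theorem D2_two {n M : ℕ} {I : Ideal (MvPolynomial (Fin n) ℂ)} {ι : Type}
    {F : ι → MvPolynomial (Fin n) ℂ} (hF : HypI I F) {i j : ι} (hij : i ≠ j)
    {g : Fin M → MvPolynomial (Fin n) ℂ} {p : ι → Fin M → ℂ}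
    (hp : ∀ i, F i - ∑ l, C (p i l) * g l ∈ I) : 2 ≤ M := by
  by_contra hM
  have hM2 : M = 0 ∨ M = 1 := by omega
  rcases hM2 with rfl | rfl
  · have h1 := hp i
    rw [Finset.univ_eq_empty, Finset.sum_empty, sub_zero] at h1
    exact hF.nonzero i h1
  · have h1 := hp i
    have h2 := hp j
    rw [Fin.sum_univ_one] at h1 h2
    have h3 : p j 0 ≠ 0 := by
      intro h0
      rw [h0, C_0, zero_mul, sub_zero] at h2
      exact hF.nonzero j h2
    refine hF.distinct i j hij (p i 0 / p j 0) ?_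
    have h4 : F i - C (p i 0 / p j 0) * F j = (F i - C (p i 0) * g 0) -
        C (p i 0 / p j 0) * (F j - C (p j 0) * g 0) := by
      have h5 : (C (p i 0) : MvPolynomial (Fin n) ℂ) = C (p i 0 / p j 0) * C (p j 0) := by
        rw [← C_mul, div_mul_cancel₀ _ h3]
      rw [h5]
      ring
    rw [h4]
    exact Ideal.sub_mem _ h1 (Ideal.mul_mem_left _ _ h2)

private theorem D2_hol {n δ M : ℕ} (hδ : 1 ≤ δ) {I : Ideal (MvPolynomial (Fin n) ℂ)}
    {g : Fin M → MvPolynomial (Fin n) ℂ} (hg : BasisD I δ g)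
    {y : ℂ → Fin n → ℂ} (hy : IsHol y) (hyI : ∀ z, ∀ G ∈ I, eval (y z) G = 0) :
    IsHol (fun z l => eval (y z) (g l)) := by
  have hne : ∀ z, (fun l => eval (y z) (g l)) ≠ 0 := by
    intro z h0
    obtain ⟨A, hA, hb⟩ := veronese_normI hδ hg
    have h1 := hb (y z) (hyI z)
    rw [h0, norm_zero, mul_zero] at h1
    have h2 : 0 < ‖y z‖ ^ δ := pow_pos (norm_pos_iff.mpr (hy.ne_zero z)) _
    linarith
  exact ⟨fun l => differentiable_eval hy.diff (g l), hne⟩

private theorem D2_lin {n M : ℕ} {I : Ideal (MvPolynomial (Fin n) ℂ)}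
    {g : Fin M → MvPolynomial (Fin n) ℂ} {ι : Type}
    {F : ι → MvPolynomial (Fin n) ℂ} {p : ι → Fin M → ℂ}
    (hp : ∀ i, F i - ∑ l, C (p i l) * g l ∈ I)
    {y : ℂ → Fin n → ℂ} (hyI : ∀ z, ∀ G ∈ I, eval (y z) G = 0) (i : ι) (z : ℂ) :
    lin (p i) (fun l => eval (y z) (g l)) = eval (y z) (F i) := by
  have h1 := hyI z _ (hp i)
  rw [map_sub, sub_eq_zero, map_sum] at h1
  rw [h1, H67T.lin]
  refine Finset.sum_congr rfl fun l _ => ?_
  rw [map_mul, eval_C]

/-- CHUNK D2 (M).  PROOF.  `K` = the maximum over `1 ≤ M' ≤ (δ + 1) ^ n` of the constants of `two_hyper M'`, and at least `2` (see how `smt_degreeI`, Lib/H53S/W4.lean, treats the dimension).  `exists_basisD`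
(Lib/H53S/V1) gives a basis `g : Fin M → ..` of the forms of degree `δ` modulo `I`, `M ≤ (δ + 1) ^ n`; `F i ≡ ∑ l, C (p i l) * g l` (`hg.span`).  `M ≥ 2`: `U` has two elements `i ≠ j`, and `F i`, `F j` are not
proportional modulo `I` (for `M ≤ 1` they would be, `F j ∉ I`).  Write `M = M' + 1`.  `dataR_comap` (Lib/H53S/W2) for the subfamily indexed by all `i` gives `DataR p I'`, `I' = I.comap (aeval g)`.
`two_hyper M'` gives `P' ∉ I'`; `P := aeval g P' ∉ I`.  For `y`: `y' z = fun l => eval (y z) (g l)`, `IsHol y'` and `lin (p i) (y' z) = eval (y z) (F i)` (proof of `veronese_curveI`, Lib/H53S/W3b: `veronese_normI`), and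
`eval (y' z) P' = eval (y z) (aeval g P')`. -/
theorem two_degree (n δ : ℕ) (hδ : 1 ≤ δ) : ∃ K : ℕ, ∀ (ι : Type) [Fintype ι] (F : ι → MvPolynomial (Fin n) ℂ)
    (I : Ideal (MvPolynomial (Fin n) ℂ)), I.IsPrime → I.IsHomogeneous (homogeneousSubmodule (Fin n) ℂ) →
    (∀ i, (F i).IsHomogeneous δ) → HypI I F → ∀ U : Finset ι, K ≤ U.card →
    ∃ P : MvPolynomial (Fin n) ℂ, P ∉ I ∧ ∀ y : ℂ → Fin n → ℂ, IsHol y → (∀ z, ∀ G ∈ I, eval (y z) G = 0) →
      (∃ z, eval (y z) P ≠ 0) → ∀ μ : ℕ, 2 ≤ μ → (∀ i ∈ U, OrdDiv μ (fun z => eval (y z) (F i))) →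
      ∃ i ∈ U, ∃ j ∈ U, i ≠ j ∧ ∃ c : ℂ, ∀ z, eval (y z) (F i) = c * eval (y z) (F j) := by
  choose kk hkk using fun (M : ℕ) (hM : 1 ≤ M) => two_hyper M hM
  refine ⟨2 + ∑ M ∈ Finset.range ((δ + 1) ^ n + 1), (if h : 1 ≤ M then kk M h else 0), ?_⟩
  intro ι _ F I hIp hI hFδ hF U hU
  obtain ⟨M', g, hM', hg⟩ := exists_basisD I δ
  choose p hp using fun i => hg.span (F i) (hFδ i)
  have hM2 : 2 ≤ M' := by
    obtain ⟨i, -, j, -, hij⟩ := Finset.one_lt_card.1 (by omega : 1 < U.card)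
    exact D2_two hF hij hp
  obtain ⟨M, rfl⟩ : ∃ M, M' = M + 1 := ⟨M' - 1, by omega⟩
  have hM1 : 1 ≤ M := by omega
  have hD := dataR_comap hδ hIp hI hg hFδ hF hp
  have hkM : kk M hM1 ≤ U.card := by
    have hmem : M ∈ Finset.range ((δ + 1) ^ n + 1) := Finset.mem_range.2 (by omega)
    have h1 := Finset.single_le_sum (f := fun M => (if h : 1 ≤ M then kk M h else 0))
      (fun _ _ => Nat.zero_le _) hmem
    simp only [dif_pos hM1] at h1
    omega
  obtain ⟨P', hP', hsm⟩ := hkk M hM1 ι p _ hD U hkM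
  refine ⟨aeval g P', hP', ?_⟩
  rintro y hy hyI ⟨z₀, hz₀⟩ μ hμ hdiv
  rw [D2_eval] at hz₀
  obtain ⟨i, hi, j, hj, hij, c, hc⟩ := hsm (fun z l => eval (y z) (g l)) (D2_hol hδ hg hy hyI)
    ⟨z₀, hz₀⟩ μ hμ (fun i hi => by
      have h1 : (fun z => lin (p i) (fun l => eval (y z) (g l))) = fun z => eval (y z) (F i) := by
        funext z
        exact D2_lin hp hyI i z
      rw [h1]
      exact hdiv i hi)
  refine ⟨i, hi, j, hj, hij, c, fun z => ?_⟩
  rw [← D2_lin hp hyI i z, ← D2_lin hp hyI j z]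
  exact hc z

end Pool.Agent.H53K
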