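import Pool.Agent.Lib.H53K.D2
import Pool.Agent.Lib.H53S.W5

set_option autoImplicit false

/-!
H53K, CHUNK D3: all degrees, number of classes.
-/

open MvPolynomial Module Real MeasureTheory
open Pool.Agent.H89.Sect Pool.Agent.H89.Arr

namespace Pool.Agent.H53K

open Pool.Agent.H67T Pool.Agent.H53S

attribute [local instance] MvPolynomial.gradedAlgebra

/-- CHUNK D3 (M).  PROOF.  Let `K δ' ≥ 1` be the constants of `two_degree n δ'` (`1 ≤ δ' ≤ δ`), `K = δ * max K δ'` (at least `1`).  For each `δ'` and each finset `U` of the subtype `{i // d i = δ'}` with `K δ' ≤ U.card` take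
`P δ' U` (`HypI` restricts to subtypes: `w5_hyp`, Lib/H53S/W5), otherwise `1`; `P` = the product over `δ' ∈ Icc 1 δ` and all `U` (finitely many) times `∏ i, F i`, not in `I`.  Let `y` and `μ` be given and let `S` be the set of
the `i` with `OrdDiv μ (F i (y))` (the indices outside `S` do not matter: give them any value of `t`).  On `S` the relation
`r i j : d i = d j ∧ ∃ c, ∀ z, eval (y z) (F i) = c * eval (y z) (F j)` is an equivalence relation (the `F i (y)` are not identically `0` because of the factor `∏ F i`, so `c ≠ 0`).  For each degree the number of classes of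
`r` among the `i ∈ S` with `d i = δ'` is less than `K δ'`: representatives (`Quotient.out`) of `K δ'` classes would give a finset `U` with two elements in one class by `two_degree`.  So the number of all classes is at most
`∑ δ', (K δ' - 1) ≤ K`, and an injection of the classes into `Fin K` gives `t`. -/
theorem classes (n δ : ℕ) : ∃ K : ℕ, ∀ (ι : Type) [Fintype ι] (d : ι → ℕ) (F : ι → MvPolynomial (Fin n) ℂ)
    (I : Ideal (MvPolynomial (Fin n) ℂ)), I.IsPrime → I.IsHomogeneous (homogeneousSubmodule (Fin n) ℂ) →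
    (∀ i, 1 ≤ d i ∧ d i ≤ δ) → (∀ i, (F i).IsHomogeneous (d i)) → HypI I F →
    ∃ P : MvPolynomial (Fin n) ℂ, P ∉ I ∧ ∀ y : ℂ → Fin n → ℂ, IsHol y → (∀ z, ∀ G ∈ I, eval (y z) G = 0) →
      (∃ z, eval (y z) P ≠ 0) → (∀ i, ∃ z, eval (y z) (F i) ≠ 0) ∧
      ∀ μ : ℕ, 2 ≤ μ → ∃ t : ι → Fin K, ∀ i j, OrdDiv μ (fun z => eval (y z) (F i)) →
        OrdDiv μ (fun z => eval (y z) (F j)) → t i = t j → d i = d j ∧
        ∃ c : ℂ, ∀ z, eval (y z) (F i) = c * eval (y z) (F j) := by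
  classical
  have h2d := fun (δ' : ℕ) (h : 1 ≤ δ') => two_degree n δ' h
  choose kk hkk using h2d
  obtain ⟨kf, hkf⟩ : ∃ kf : ℕ → ℕ, kf = fun δ' => if h : 1 ≤ δ' then kk δ' h else 0 := ⟨_, rfl⟩
  obtain ⟨K₀, hK₀⟩ : ∃ K : ℕ, K = max 1 ((Finset.Icc 1 δ).sup kf) := ⟨_, rfl⟩
  have hK1 : 0 < K₀ := by rw [hK₀]; exact lt_of_lt_of_le one_pos (le_max_left _ _)
  have hKk : ∀ δ' (h1 : 1 ≤ δ'), δ' ≤ δ → kk δ' h1 ≤ K₀ := by
    intro δ' h1 h2
    have h3 : kf δ' ≤ K₀ := by
      rw [hK₀]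
      exact le_trans (Finset.le_sup (f := kf) (Finset.mem_Icc.mpr ⟨h1, h2⟩)) (le_max_right _ _)
    rw [hkf] at h3
    simpa [h1] using h3
  refine ⟨(δ + 1) * K₀, ?_⟩
  intro ι _ d F I hIp hI hd hF hH
  have h1J : (1 : MvPolynomial (Fin n) ℂ) ∉ I := by
    intro h
    exact hIp.ne_top ((Ideal.eq_top_iff_one I).mpr h)
  have claim : ∀ (δ' : ℕ) (U : Finset {i // d i = δ'}), ∃ P : MvPolynomial (Fin n) ℂ, P ∉ I ∧
      (1 ≤ δ' → δ' ≤ δ → K₀ ≤ U.card → ∀ y : ℂ → Fin n → ℂ, IsHol y →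
        (∀ z, ∀ G ∈ I, eval (y z) G = 0) → (∃ z, eval (y z) P ≠ 0) → ∀ μ : ℕ, 2 ≤ μ →
        (∀ i ∈ U, OrdDiv μ (fun z => eval (y z) (F i.1))) →
        ∃ i ∈ U, ∃ j ∈ U, i ≠ j ∧ ∃ c : ℂ, ∀ z, eval (y z) (F i.1) = c * eval (y z) (F j.1)) := by
    intro δ' U
    by_cases h : 1 ≤ δ' ∧ δ' ≤ δ ∧ K₀ ≤ U.card
    · obtain ⟨h1, h2, h3⟩ := h
      obtain ⟨P, hP, hP'⟩ := hkk δ' h1 {i // d i = δ'} (fun i => F i.1) I hIp hI
        (fun i => by have := hF i.1; rwa [i.2] at this) (w5_hyp hH _) U ((hKk δ' h1 h2).trans h3)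
      exact ⟨P, hP, fun _ _ _ => hP'⟩
    · exact ⟨1, h1J, fun h1 h2 h3 => absurd ⟨h1, h2, h3⟩ h⟩
  choose P hPI hP using claim
  refine ⟨(∏ δ' ∈ Finset.Icc 1 δ, ∏ U : Finset {i // d i = δ'}, P δ' U) * ∏ i, F i, ?_, ?_⟩
  · intro h
    rcases hIp.mem_or_mem h with h | h
    · obtain ⟨δ', -, h⟩ := (Ideal.IsPrime.prod_mem_iff (hp := hIp)).mp h
      obtain ⟨U, -, h⟩ := (Ideal.IsPrime.prod_mem_iff (hp := hIp)).mp h
      exact hPI δ' U h
    · obtain ⟨i, -, h⟩ := (Ideal.IsPrime.prod_mem_iff (hp := hIp)).mp h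
      exact hH.nonzero i h
  intro y hy hyI hyP
  obtain ⟨z₀, hz₀⟩ := hyP
  rw [map_mul, map_prod, map_prod] at hz₀
  have hFz : ∀ i, eval (y z₀) (F i) ≠ 0 := fun i =>
    Finset.prod_ne_zero_iff.mp (right_ne_zero_of_mul hz₀) i (Finset.mem_univ i)
  have hPz : ∀ δ' ∈ Finset.Icc 1 δ, ∀ U : Finset {i // d i = δ'}, eval (y z₀) (P δ' U) ≠ 0 := by
    intro δ' hδ' U
    have h1 := Finset.prod_ne_zero_iff.mp (left_ne_zero_of_mul hz₀) δ' hδ'
    rw [map_prod] at h1
    exact Finset.prod_ne_zero_iff.mp h1 U (Finset.mem_univ U)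
  refine ⟨fun i => ⟨z₀, hFz i⟩, ?_⟩
  intro μ hμ
  have hcls : ∀ δ' : ℕ, ∃ T : {i // d i = δ'} → Fin K₀, ∀ a b,
      OrdDiv μ (fun z => eval (y z) (F a.1)) → OrdDiv μ (fun z => eval (y z) (F b.1)) →
      T a = T b → ∃ c : ℂ, ∀ z, eval (y z) (F a.1) = c * eval (y z) (F b.1) := by
    intro δ'
    by_cases hmem : δ' ∈ Finset.Icc 1 δ
    · obtain ⟨h1, h2⟩ := Finset.mem_Icc.mp hmem
      let s : Setoid {a : {i // d i = δ'} // OrdDiv μ (fun z => eval (y z) (F a.1))} :=
        { r := fun a b => ∃ c : ℂ, ∀ z, eval (y z) (F a.1.1) = c * eval (y z) (F b.1.1)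
          iseqv := by
            refine ⟨fun a => ⟨1, fun z => by rw [one_mul]⟩, ?_, ?_⟩
            · rintro a b ⟨c, hc⟩
              have hc0 : c ≠ 0 := by
                rintro rfl
                have := hc z₀
                rw [zero_mul] at this
                exact hFz a.1.1 this
              refine ⟨c⁻¹, fun z => ?_⟩
              rw [hc z, ← mul_assoc, inv_mul_cancel₀ hc0, one_mul]
            · rintro a b e ⟨c, hc⟩ ⟨c', hc'⟩
              exact ⟨c * c', fun z => by rw [hc z, hc' z, mul_assoc]⟩ }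
      have hlt : Fintype.card (Quotient s) < K₀ := by
        by_contra hge
        push Not at hge
        let U : Finset {i // d i = δ'} :=
          Finset.univ.image (fun q : Quotient s => (Quotient.out q).1)
        have hU : U.card = Fintype.card (Quotient s) := by
          have hinj : Function.Injective (fun q : Quotient s => (Quotient.out q).1) :=
            fun q q' h => Quotient.out_injective (Subtype.val_injective h)
          rw [Finset.card_image_of_injective _ hinj, Finset.card_univ]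
        obtain ⟨i, hi, j, hj, hij, c, hc⟩ := hP δ' U h1 h2 (by rw [hU]; exact hge) y hy hyI
          ⟨z₀, hPz δ' hmem U⟩ μ hμ (fun i hi => by
            obtain ⟨q, -, rfl⟩ := Finset.mem_image.mp hi
            exact (Quotient.out q).2)
        obtain ⟨q, -, rfl⟩ := Finset.mem_image.mp hi
        obtain ⟨q', -, rfl⟩ := Finset.mem_image.mp hj
        apply hij
        have h3 : (⟦Quotient.out q⟧ : Quotient s) = ⟦Quotient.out q'⟧ := Quotient.sound ⟨c, hc⟩
        rw [Quotient.out_eq, Quotient.out_eq] at h3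
        rw [h3]
      obtain ⟨e⟩ : Nonempty (Quotient s ↪ Fin K₀) :=
        Function.Embedding.nonempty_of_card_le (by rw [Fintype.card_fin]; exact hlt.le)
      refine ⟨fun a => if h : OrdDiv μ (fun z => eval (y z) (F a.1)) then e ⟦⟨a, h⟩⟧ else ⟨0, hK1⟩,
        fun a b ha hb hab => ?_⟩
      simp only [dif_pos ha, dif_pos hb] at hab
      exact Quotient.exact (e.injective hab)
    · refine ⟨fun _ => ⟨0, hK1⟩, fun a b _ => absurd ?_ hmem⟩
      rw [← a.2]
      exact Finset.mem_Icc.mpr (hd a.1)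
  choose T hT using hcls
  let T' : ℕ → ι → Fin K₀ := fun δ' i => if h : d i = δ' then T δ' ⟨i, h⟩ else ⟨0, hK1⟩
  have hT' : ∀ δ' i (h : d i = δ'), T' δ' i = T δ' ⟨i, h⟩ := fun δ' i h => dif_pos h
  refine ⟨fun i => finProdFinEquiv (⟨d i, Nat.lt_succ_of_le (hd i).2⟩, T' (d i) i), ?_⟩
  intro i j hoi hoj hij
  have h1 := finProdFinEquiv.injective hij
  rw [Prod.mk.injEq, Fin.mk.injEq] at h1
  obtain ⟨h2, h3⟩ := h1
  refine ⟨h2, ?_⟩
  rw [← h2, hT' _ i rfl, hT' _ j h2.symm] at h3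
  exact hT _ _ _ hoi hoj h3

end Pool.Agent.H53K
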