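import Pool.Agent.Lib.H53S.D1

set_option autoImplicit false

/-!
H53K: entire curves in covers which are ramified over hypersurfaces in arbitrary position (MP_2a5ae2_ag, weight 25).
Definitions.  See PROOF.md.
-/

open MvPolynomial Module Real MeasureTheory
open Pool.Agent.H89.Sect Pool.Agent.H89.Arr

namespace Pool.Agent.H53K

open Pool.Agent.H67T Pool.Agent.H53S

/-- All zeros of `f` have multiplicities divisible by `μ` (the multiplicity `⊤` of the function `0` is allowed). -/
def OrdDiv (μ : ℕ) (f : ℂ → ℂ) : Prop := ∀ z, ∃ e : ℕ∞, analyticOrderAt f z = (μ : ℕ∞) * e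

/-- The output of the construction of the curve `Γ` in the dual space: `Γ` has degree `q`, spans a subspace with basis the linear
forms `cc l`, and contains the hyperplanes `p i = ∑ l, pb i l • cc l`. -/
structure CurveOut {n k : ℕ} (q : ℕ) (p : Fin k → Fin (n + 1) → ℂ) (I : Ideal (MvPolynomial (Fin (n + 1)) ℂ))
    {m : ℕ} (cc : Fin m → Fin (n + 1) → ℂ) (pb : Fin k → Fin m → ℂ) (Pb : MvPolynomial (Fin m) ℂ) : Prop where
  eq : ∀ i, p i = ∑ l, pb i l • cc l
  span : ∀ v : Fin m → ℂ, (∀ i, lin (pb i) v = 0) → v = 0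
  ne : ∀ l, cc l ≠ 0
  not_mem : aeval (fun l => lf (cc l)) Pb ∉ I
  hasQ : ∀ y : ℂ → Fin m → ℂ, IsHol y → (∃ z, eval (y z) Pb ≠ 0) → HasQ pb q y

end Pool.Agent.H53K
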