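import Pool.Agent.Lib.H53K.KD
import Pool.Agent.Lib.H67T.NJ5
import Pool.Agent.Lib.H67T.NM2
import Pool.Agent.Lib.H67T.GH4

set_option autoImplicit false

/-!
H53K, CHUNK N1: counting without multiplicities.
-/

open MvPolynomial Module Real MeasureTheory
open Pool.Agent.H89.Sect Pool.Agent.H89.Arr

namespace Pool.Agent.H53K

open Pool.Agent.H67T Pool.Agent.H53S

attribute [local instance] MvPolynomial.gradedAlgebra

/-- CHUNK N1 (S/M).  PROOF.  `G z = lin p (y z)` is entire, not identically `0`.  `counting_le` (Lib/H67T/NJ5) with `ι = Unit`, `g = f = G`, `e = 2`: if `G z = 0` its order at `z` is `≥ 1` and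
`μ * e`, so `≥ 2`: `2 * N1 G r ≤ circleAverage (log ‖G‖) + K`.  And `circleAverage (log ‖G‖) 0 r ≤ chi y r + log A` with `‖lin p (y z)‖ ≤ A * ‖y z‖`, `A = 1 + ∑ j, ‖p j‖` (`NS2_lin_le`, see
`avg_le_chi` / `avg_form_le` / `GH4_average_mono` in Lib/H67T). -/
theorem n1_le {m μ : ℕ} (hμ : 2 ≤ μ) {p : Fin m → ℂ} {y : ℂ → Fin m → ℂ} (hy : IsHol y) (hp : ∃ z, lin p (y z) ≠ 0)
    (hdiv : OrdDiv μ (fun z => lin p (y z))) :
    ∃ K : ℝ, ∀ r : ℝ, 1 ≤ r → 2 * N1 (fun z => lin p (y z)) r ≤ chi y r + K := by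
  have hGd : Differentiable ℂ (fun z => lin p (y z)) := NS2_lin_diff p hy.diff
  obtain ⟨K, hK⟩ := counting_le (ι := Unit) (g := fun _ => fun z => lin p (y z)) (f := fun z => lin p (y z)) (e := 2)
    (fun _ => hGd) (fun _ => hp) hGd hp (by
      intro z U hU
      rcases U.eq_empty_or_nonempty with he | ⟨i, hi⟩
      · rw [he]
        simp
      · have hz := hU i hi
        have hcard : U.card ≤ 1 := by
          have := Finset.card_le_univ U
          simpa using this
        have h1 : analyticOrderAt (fun z => lin p (y z)) z ≠ 0 :=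
          (hGd.analyticAt z).analyticOrderAt_ne_zero.2 hz
        obtain ⟨e, he⟩ := hdiv z
        rw [he] at h1 ⊢
        have he0 : e ≠ 0 := by
          rintro rfl
          exact h1 (mul_zero _)
        have he1 : (1 : ℕ∞) ≤ e := ENat.one_le_iff_ne_zero.2 he0
        calc ((2 * U.card : ℕ) : ℕ∞) ≤ ((μ : ℕ) : ℕ∞) := by
              exact_mod_cast (by nlinarith : 2 * U.card ≤ μ)
          _ = (μ : ℕ∞) * 1 := (mul_one _).symm
          _ ≤ (μ : ℕ∞) * e := by gcongr)
  have hs0 : 0 ≤ ∑ j, ‖p j‖ := Finset.sum_nonneg fun j _ => norm_nonneg _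
  refine ⟨K + log (1 + ∑ j, ‖p j‖), fun r hr => ?_⟩
  have h1 := hK r hr
  have h2 := avg_le_chi hy hGd (A := 1 + ∑ j, ‖p j‖) (by linarith) (fun z => by
    refine (NS2_lin_le p (y z)).trans ?_
    have := norm_nonneg (y z)
    nlinarith) (by linarith : 0 < r) hp
  simp only [Finset.univ_unique, Finset.sum_singleton, Nat.cast_ofNat] at h1
  linarith

end Pool.Agent.H53K
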