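import Pool.Agent.Lib.H53K.KD
import Pool.Agent.Lib.H24V.A6

set_option autoImplicit false

/-!
H53K, CHUNK W1: entire functions with prescribed zeros (from Lib/H24V/A6).
-/

open MvPolynomial Module Real MeasureTheory
open Pool.Agent.H89.Sect Pool.Agent.H89.Arr

namespace Pool.Agent.H53K

open Pool.Agent.H67T Pool.Agent.H53S

attribute [local instance] MvPolynomial.gradedAlgebra

/-- Weierstrass: an entire function with prescribed orders. -/
theorem exists_entire (c : ℂ → ℕ) (hc : ∀ r : ℝ, {a : ℂ | ‖a‖ ≤ r ∧ c a ≠ 0}.Finite) :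
    ∃ g : ℂ → ℂ, Differentiable ℂ g ∧ ∀ a, analyticOrderAt g a = c a := by
  obtain ⟨β, -, h⟩ := Pool.Agent.H24V.weierstrass c hc
  exact ⟨β.1, β.2, h⟩

end Pool.Agent.H53K
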