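import Pool.Agent.Lib.H53K.KD
import Pool.Agent.Lib.H67T.GH5

set_option autoImplicit false

/-!
H53K, CHUNK X1: local powers along a curve.
-/

open MvPolynomial Module Real MeasureTheory
open Pool.Agent.H89.Sect Pool.Agent.H89.Arr

namespace Pool.Agent.H53K

open Pool.Agent.H67T Pool.Agent.H53S

attribute [local instance] MvPolynomial.gradedAlgebra

/-- CHUNK X1 (S).  PROOF.  Fix `z`, take `S, T, H` at `x = u z`.  Along `u`: `eval (u w) S * eval (u w) G = eval (u w) T * (eval (u w) H) ^ μ` for all `w` (`huJ`).  Orders at `z` (`analyticOrderAt_mul`, `analyticOrderAt_pow`;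
all functions `w ↦ eval (u w) _` are entire: `differentiable_eval`, Lib/H67T/GH5): `S`, `T` have order `0` at `z`, so `ord G(u) = μ * ord H(u)`. -/
theorem ordDiv_of_local {m μ : ℕ} {J : Ideal (MvPolynomial (Fin m) ℂ)} {G : MvPolynomial (Fin m) ℂ} {u : ℂ → Fin m → ℂ}
    (hu : ∀ j, Differentiable ℂ fun z => u z j) (huJ : ∀ z, ∀ H ∈ J, eval (u z) H = 0)
    (h : ∀ z, ∃ S T H : MvPolynomial (Fin m) ℂ, eval (u z) S ≠ 0 ∧ eval (u z) T ≠ 0 ∧ S * G - T * H ^ μ ∈ J) :
    OrdDiv μ (fun z => eval (u z) G) := by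
  intro z
  obtain ⟨S, T, H, hS, hT, hJ⟩ := h z
  have aS : AnalyticAt ℂ (fun w => eval (u w) S) z := (differentiable_eval hu S).analyticAt z
  have aG : AnalyticAt ℂ (fun w => eval (u w) G) z := (differentiable_eval hu G).analyticAt z
  have aT : AnalyticAt ℂ (fun w => eval (u w) T) z := (differentiable_eval hu T).analyticAt z
  have aH : AnalyticAt ℂ (fun w => eval (u w) H) z := (differentiable_eval hu H).analyticAt z
  have key : (fun w => eval (u w) S) * (fun w => eval (u w) G)
      = (fun w => eval (u w) T) * (fun w => eval (u w) H) ^ μ := by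
    funext w
    have h1 := huJ w _ hJ
    rw [map_sub, map_mul, map_mul, map_pow] at h1
    simpa [Pi.mul_apply, Pi.pow_apply] using sub_eq_zero.mp h1
  have oS : analyticOrderAt (fun w => eval (u w) S) z = 0 := aS.analyticOrderAt_eq_zero.mpr hS
  have oT : analyticOrderAt (fun w => eval (u w) T) z = 0 := aT.analyticOrderAt_eq_zero.mpr hT
  refine ⟨analyticOrderAt (fun w => eval (u w) H) z, ?_⟩
  have h2 : analyticOrderAt ((fun w => eval (u w) S) * (fun w => eval (u w) G)) z
      = analyticOrderAt ((fun w => eval (u w) T) * (fun w => eval (u w) H) ^ μ) z := by rw [key]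
  rw [analyticOrderAt_mul aS aG, analyticOrderAt_mul aT (aH.pow μ), analyticOrderAt_pow aH, oS, oT,
    zero_add, zero_add, nsmul_eq_mul] at h2
  exact h2

end Pool.Agent.H53K
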