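import Pool.Agent.Lib.H53K.KD
import Pool.Agent.Lib.H53S.G3

set_option autoImplicit false

/-!
H53K, CHUNK X2: the ideal of the cone over a curve.
-/

open MvPolynomial Module Real MeasureTheory
open Pool.Agent.H89.Sect Pool.Agent.H89.Arr

namespace Pool.Agent.H53K

open Pool.Agent.H67T Pool.Agent.H53S

attribute [local instance] MvPolynomial.gradedAlgebra

/-- The polynomial `t ↦ G (t v)`. -/
private noncomputable def x2_poly {n : ℕ} (v : Fin n → ℂ) (G : MvPolynomial (Fin n) ℂ) : Polynomial ℂ :=
  aeval (fun j => Polynomial.C (v j) * Polynomial.X) G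

private theorem x2_poly_eval {n : ℕ} (v : Fin n → ℂ) (G : MvPolynomial (Fin n) ℂ) (t : ℂ) :
    (x2_poly v G).eval t = eval (t • v) G := by
  unfold x2_poly
  induction G using MvPolynomial.induction_on with
  | C a =>
    rw [aeval_C, eval_C, Polynomial.algebraMap_eq, Polynomial.eval_C]
  | add p q hp hq =>
    rw [map_add, map_add, Polynomial.eval_add, hp, hq]
  | mul_X p i hp =>
    rw [map_mul, map_mul, Polynomial.eval_mul, hp, aeval_X, eval_X, Polynomial.eval_mul,
      Polynomial.eval_C, Polynomial.eval_X, Pi.smul_apply, smul_eq_mul, mul_comm t]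

private theorem x2_hom {n : ℕ} (v : Fin n → ℂ) (G : MvPolynomial (Fin n) ℂ)
    (h : ∀ t : ℂ, eval (t • v) G = 0) (e : ℕ) : eval v (homogeneousComponent e G) = 0 := by
  set p : Polynomial ℂ := ∑ i ∈ Finset.range (G.totalDegree + 1),
    Polynomial.C (eval v (homogeneousComponent i G)) * Polynomial.X ^ i with hp
  have hp0 : p = 0 := by
    apply Polynomial.funext
    intro t
    rw [hp, Polynomial.eval_finsetSum, Polynomial.eval_zero, ← h t]
    conv_rhs => rw [← MvPolynomial.sum_homogeneousComponent G, map_sum]
    refine Finset.sum_congr rfl fun i _ => ?_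
    rw [Polynomial.eval_mul, Polynomial.eval_C, Polynomial.eval_pow, Polynomial.eval_X,
      eval_smul_hom (homogeneousComponent_isHomogeneous i G), mul_comm]
  by_cases he : e < G.totalDegree + 1
  · have h1 : p.coeff e = eval v (homogeneousComponent e G) := by
      rw [hp, Polynomial.finsetSum_coeff]
      rw [Finset.sum_eq_single e]
      · simp
      · intro i _ hi
        rw [Polynomial.coeff_C_mul, Polynomial.coeff_X_pow, if_neg hi.symm, mul_zero]
      · intro h2
        exact absurd (Finset.mem_range.mpr he) h2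
    rw [← h1, hp0, Polynomial.coeff_zero]
  · rw [homogeneousComponent_eq_zero e G (by omega), map_zero]

/-- CHUNK X2 (M).  PROOF.  `W = {G | ∀ z t, eval (t • y z) G = 0}` (an ideal).  Homogeneous: `G ∈ W` and `G = ∑ e, G_e`: `eval (t • y z) G = ∑ e, t ^ e * eval (y z) G_e` (`eval_smul_hom`, Lib/H53S/G3) vanishes for
all `t`, so all `eval (y z) G_e = 0` (a polynomial in `t` with infinitely many zeros), and `eval (t • y z) G_e = t ^ e * 0`.  Prime: `1 ∉ W`; let `G * H ∈ W`, `G ∉ W`, `H ∉ W`: `eval (t₁ • y z₁) G ≠ 0`, `eval (t₂ • y z₂) H ≠ 0`.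
By homogeneity components `G_e`, `H_f` with `eval (y z₁) G_e ≠ 0`, `eval (y z₂) H_f ≠ 0`; take `e`, `f` maximal with `G_e ∉ W`, `H_f ∉ W`... (usual argument), or avoid it: `Φ (t, z) = eval (t • y z) G` is entire in `z` for
each fixed `t`; choose one `t ≠ 0` with both `z ↦ eval (t • y z) G` and `z ↦ eval (t • y z) H` not identically zero (each of the polynomials `t ↦ eval (t • y z₁) G`, `t ↦ eval (t • y z₂) H` is non-zero, so
has finitely many zeros), and use that a product of two entire functions which are not identically zero is not identically zero (`AnalyticOnNhd.eqOn_zero_or_eventually_ne..`, or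
`mul_ne_zero` at a point off the two countable zero sets; see the similar arguments in Lib/H53S/G3). -/
theorem exists_ideal {n : ℕ} {y : ℂ → Fin n → ℂ} (hy : ∀ j, Differentiable ℂ fun z => y z j) :
    ∃ W : Ideal (MvPolynomial (Fin n) ℂ), W.IsPrime ∧ (∀ F ∈ W, ∀ e, homogeneousComponent e F ∈ W) ∧
      ∀ (G : MvPolynomial (Fin n) ℂ) (e : ℕ), G.IsHomogeneous e → (G ∈ W ↔ ∀ z, eval (y z) G = 0) := by
  let W : Ideal (MvPolynomial (Fin n) ℂ) :=
    { carrier := {G | ∀ (z t : ℂ), eval (t • y z) G = 0}
      add_mem' := by
        intro a b ha hb z t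
        rw [map_add, ha z t, hb z t, add_zero]
      zero_mem' := by
        intro z t
        rw [map_zero]
      smul_mem' := by
        intro c a ha z t
        rw [smul_eq_mul, map_mul, ha z t, mul_zero] }
  have hW : ∀ G, G ∈ W ↔ ∀ (z t : ℂ), eval (t • y z) G = 0 := fun G => Iff.rfl
  have hanal : ∀ (t : ℂ) (G : MvPolynomial (Fin n) ℂ),
      AnalyticOnNhd ℂ (fun z => eval (t • y z) G) Set.univ := by
    intro t G z _
    have : Differentiable ℂ fun z => eval (t • y z) G :=
      differentiable_eval (u := fun z => t • y z) (fun j => by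
        simpa [Pi.smul_apply] using (hy j).const_mul t) G
    exact this.analyticAt z
  refine ⟨W, ?_, ?_, ?_⟩
  · refine ⟨?_, ?_⟩
    · intro h1
      have h2 : (1 : MvPolynomial (Fin n) ℂ) ∈ W := by rw [h1]; exact Submodule.mem_top
      have h3 := (hW 1).mp h2 0 0
      rw [map_one] at h3
      exact one_ne_zero h3
    · intro G H hGH
      by_contra hcon
      rw [not_or, hW, hW] at hcon
      obtain ⟨hG, hH⟩ := hcon
      push Not at hG hH
      obtain ⟨z₁, t₁, h1⟩ := hG
      obtain ⟨z₂, t₂, h2⟩ := hH
      have hne : x2_poly (y z₁) G * x2_poly (y z₂) H ≠ 0 := by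
        apply mul_ne_zero
        · intro h0
          rw [← x2_poly_eval, h0, Polynomial.eval_zero] at h1
          exact h1 rfl
        · intro h0
          rw [← x2_poly_eval, h0, Polynomial.eval_zero] at h2
          exact h2 rfl
      obtain ⟨t, ht⟩ : ∃ t : ℂ, (x2_poly (y z₁) G * x2_poly (y z₂) H).eval t ≠ 0 := by
        by_contra hcon
        push Not at hcon
        exact hne (Polynomial.funext fun t => by rw [hcon t, Polynomial.eval_zero])
      rw [Polynomial.eval_mul, x2_poly_eval, x2_poly_eval] at ht
      have hprod : (fun z => eval (t • y z) G) * (fun z => eval (t • y z) H) = 0 := by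
        funext z
        show eval (t • y z) G * eval (t • y z) H = 0
        rw [← map_mul]
        exact (hW _).mp hGH z t
      rcases AnalyticOnNhd.eq_zero_or_eq_zero_of_mul_eq_zero (hanal t G) (hanal t H)
        (fun z _ => congrFun hprod z) isPreconnected_univ with h | h
      · exact left_ne_zero_of_mul ht (h z₁ (Set.mem_univ _))
      · exact right_ne_zero_of_mul ht (h z₂ (Set.mem_univ _))
  · intro F hF e
    rw [hW]
    intro z t
    rw [eval_smul_hom (homogeneousComponent_isHomogeneous e F), x2_hom (y z) F (fun t => (hW F).mp hF z t) e,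
      mul_zero]
  · intro G e hG
    rw [hW]
    constructor
    · intro h z
      have := h z 1
      rwa [one_smul] at this
    · intro h z t
      rw [eval_smul_hom hG, h z, mul_zero]

end Pool.Agent.H53K
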