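import Pool.Agent.Lib.H53K.D3
import Pool.Agent.Lib.H53S.G3

set_option autoImplicit false

/-!
H53K, CHUNK X3: a homogeneous polynomial.
-/

open MvPolynomial Module Real MeasureTheory
open Pool.Agent.H89.Sect Pool.Agent.H89.Arr

namespace Pool.Agent.H53K

open Pool.Agent.H67T Pool.Agent.H53S

attribute [local instance] MvPolynomial.gradedAlgebra

private theorem x3_mem {n : ℕ} {I : Ideal (MvPolynomial (Fin n) ℂ)}
    (hI : I.IsHomogeneous (homogeneousSubmodule (Fin n) ℂ)) {x : Fin n → ℂ}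
    (hx : ∀ G ∈ I, eval x G = 0) (s : ℂ) : ∀ G ∈ I, eval (s • x) G = 0 := by
  intro G hG
  rw [← sum_homogeneousComponent G, map_sum]
  refine Finset.sum_eq_zero fun b _ => ?_
  have h1 : homogeneousComponent b G ∈ I := by
    have h2 := hI b hG
    have h3 : ((DirectSum.decompose (homogeneousSubmodule (Fin n) ℂ) G b :
        homogeneousSubmodule (Fin n) ℂ b) : MvPolynomial (Fin n) ℂ) = homogeneousComponent b G := by
      change ((decomposition.decompose' G b : homogeneousSubmodule (Fin n) ℂ b) :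
        MvPolynomial (Fin n) ℂ) = _
      rw [decomposition.decompose'_apply]
    rw [← h3]
    exact h2
  rw [eval_smul_hom (homogeneousComponent_isHomogeneous b G), hx _ h1, mul_zero]

/-- CHUNK X3 (S/M).  PROOF.  Take `P'` of `classes`; `P' ∉ I`, so some homogeneous component `P := homogeneousComponent b P' ∉ I` (`I` is an ideal, `P'` is the sum of its components: `sum_homogeneousComponent`).
Let `P(y z₁) ≠ 0`.  The polynomial `s ↦ eval (s • y z₁) P' = ∑ e, s ^ e * eval (y z₁) (P'_e)` is not zero (coefficient of `s ^ b`), so there is `s ≠ 0` with `eval (s • y z₁) P' ≠ 0`.  Apply `classes` to `y' = s • y`: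
`IsHol y'`, `eval (s • y z) G = 0` for `G ∈ I` (homogeneous ideal: `G ∈ I` iff all components; or see `covers_component` in Lib/H53S/G5.lean where this was done), `eval (s • y z) (F i) = s ^ d i * eval (y z) (F i)`
(`eval_smul_hom`), so `OrdDiv` is unchanged (constant factor `≠ 0`) and `F i (y') = c F j (y')` with `d i = d j` gives `F i (y) = c F j (y)`. -/
theorem classesH (n δ : ℕ) : ∃ K : ℕ, ∀ (ι : Type) [Fintype ι] (d : ι → ℕ) (F : ι → MvPolynomial (Fin n) ℂ)
    (I : Ideal (MvPolynomial (Fin n) ℂ)), I.IsPrime → I.IsHomogeneous (homogeneousSubmodule (Fin n) ℂ) →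
    (∀ i, 1 ≤ d i ∧ d i ≤ δ) → (∀ i, (F i).IsHomogeneous (d i)) → HypI I F →
    ∃ (b : ℕ) (P : MvPolynomial (Fin n) ℂ), P.IsHomogeneous b ∧ P ∉ I ∧
      ∀ y : ℂ → Fin n → ℂ, IsHol y → (∀ z, ∀ G ∈ I, eval (y z) G = 0) →
      (∃ z, eval (y z) P ≠ 0) → (∀ i, ∃ z, eval (y z) (F i) ≠ 0) ∧
      ∀ μ : ℕ, 2 ≤ μ → ∃ t : ι → Fin K, ∀ i j, OrdDiv μ (fun z => eval (y z) (F i)) →
        OrdDiv μ (fun z => eval (y z) (F j)) → t i = t j → d i = d j ∧
        ∃ c : ℂ, ∀ z, eval (y z) (F i) = c * eval (y z) (F j) := by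
  obtain ⟨K, hK⟩ := classes n δ
  refine ⟨K, fun ι _ d F I hIp hIh hd hF hI => ?_⟩
  obtain ⟨P', hP', hcl⟩ := hK ι d F I hIp hIh hd hF hI
  obtain ⟨b, hb⟩ : ∃ b, homogeneousComponent b P' ∉ I := by
    by_contra hcon
    push Not at hcon
    apply hP'
    rw [← sum_homogeneousComponent P']
    exact I.sum_mem fun b _ => hcon b
  refine ⟨b, homogeneousComponent b P', homogeneousComponent_isHomogeneous b P', hb,
    fun y hy hyI hyP => ?_⟩
  obtain ⟨z₁, hz₁⟩ := hyP
  obtain ⟨s, hs, hsP⟩ : ∃ s : ℂ, s ≠ 0 ∧ eval (s • y z₁) P' ≠ 0 := by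
    by_contra hcon
    push Not at hcon
    exact hz₁ (Pool.Agent.H89.Kummer.eval_homogeneousComponent_eq_zero (fun c hc => hcon c hc) b)
  have hev : ∀ i z, eval (s • y z) (F i) = s ^ d i * eval (y z) (F i) := fun i z =>
    eval_smul_hom (hF i) s (y z)
  have hord : ∀ μ i, OrdDiv μ (fun z => eval (y z) (F i)) → OrdDiv μ (fun z => eval (s • y z) (F i)) := by
    intro μ i h z
    obtain ⟨e, he⟩ := h z
    refine ⟨e, ?_⟩
    rw [← he]
    have h2 : (fun z => eval (s • y z) (F i)) = (fun _ : ℂ => s ^ d i) * fun z => eval (y z) (F i) := by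
      funext z'
      exact hev i z'
    rw [h2, analyticOrderAt_mul analyticAt_const ((differentiable_eval hy.diff (F i)).analyticAt z)]
    have h6 : analyticOrderAt (fun _ : ℂ => s ^ d i) z = 0 := by
      rw [analyticAt_const.analyticOrderAt_eq_zero]
      exact pow_ne_zero _ hs
    rw [h6, zero_add]
  have hsy : IsHol fun z => s • y z := by
    refine ⟨fun j => (hy.diff j).const_mul s, fun z => smul_ne_zero hs (hy.ne_zero z)⟩
  obtain ⟨h2, h3⟩ := hcl (fun z => s • y z) hsy (fun z => x3_mem hIh (hyI z) s) ⟨z₁, hsP⟩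
  refine ⟨fun i => ?_, fun μ hμ => ?_⟩
  · obtain ⟨z, hz⟩ := h2 i
    refine ⟨z, fun h0 => hz ?_⟩
    rw [hev, h0, mul_zero]
  · obtain ⟨t, ht⟩ := h3 μ hμ
    refine ⟨t, fun i j hi hj hij => ?_⟩
    obtain ⟨hdij, c, hc⟩ := ht i j (hord μ i hi) (hord μ j hj) hij
    refine ⟨hdij, c, fun z => ?_⟩
    have h4 := hc z
    rw [hev, hev, hdij] at h4
    have h5 : s ^ d j ≠ 0 := pow_ne_zero _ hs
    apply mul_left_cancel₀ h5
    rw [h4]; ring

end Pool.Agent.H53K
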