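import Pool.Agent.Lib.H53K.KD
import Pool.Agent.Lib.H89T.DP4

set_option autoImplicit false

/-!
H53K, X4: a form has a zero on the closure of a nonconstant curve; a class with many members.
-/

open MvPolynomial
open Pool.Agent.H89T (Stable act eval_act_mem nonconstant_comp)

namespace Pool.Agent.H53K

/-- A form of positive degree has a zero on each closed cone which contains a nonconstant curve. -/
theorem exists_zero {n : ℕ} {W : Ideal (MvPolynomial (Fin n) ℂ)}
    (hWh : ∀ F ∈ W, ∀ e, homogeneousComponent e F ∈ W) {y : ℂ → Fin n → ℂ}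
    (hy : Pool.Agent.H67T.IsHol y) (hyW : ∀ z, ∀ G ∈ W, eval (y z) G = 0)
    (hnc : ∃ z z', ∀ t : ℂ, y z' ≠ t • y z) {F : MvPolynomial (Fin n) ℂ} {e : ℕ}
    (hF : F.IsHomogeneous e) (he : 1 ≤ e) :
    ∃ x : Fin n → ℂ, x ≠ 0 ∧ (∀ G ∈ W, eval x G = 0) ∧ eval x F = 0 := by
  by_contra hcon
  push Not at hcon
  have hact : ∀ (t : ℂ) (x : Fin n → ℂ), act (1 : Fin n → ℕ) t x = t • x := by
    intro t x
    funext i
    simp [act]
  have hst : Stable (1 : Fin n → ℕ) W := fun x hx t => eval_act_mem (fun G hG d => hWh G hG d) hx t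
  obtain ⟨z, z', h⟩ := nonconstant_comp (w := (1 : Fin n → ℕ)) (fun _ => le_rfl) hst he
    (f := fun _ : Fin 1 => F) (fun _ => hF) (fun x hx hxW => ⟨0, hcon x hx hxW⟩) hy hyW
    (by
      obtain ⟨z, z', h⟩ := hnc
      exact ⟨z, z', fun t => by rw [hact]; exact h t⟩)
  have h0 : eval (y z) F ≠ 0 := hcon (y z) (hy.ne_zero z) (hyW z)
  apply h (eval (y z') F / eval (y z) F)
  funext j
  simp only [Pi.smul_apply, smul_eq_mul]
  rw [div_mul_cancel₀ _ h0]

/-- If more than `K * N` members of a family are divided into `K` classes, some class has more than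
`N` members. -/
theorem exists_class {k K N : ℕ} {S : Set (Fin k)} (t : Fin k → Fin K) (h : K * N < S.ncard) :
    ∃ j ∈ S, N < {i | i ∈ S ∧ t i = t j}.ncard := by
  classical
  have hS : S.ncard = S.toFinset.card := Set.ncard_eq_toFinset_card' S
  obtain ⟨c, -, hc⟩ := Finset.exists_lt_card_fiber_of_mul_lt_card_of_maps_to
    (s := S.toFinset) (t := (Finset.univ : Finset (Fin K))) (f := t) (n := N)
    (fun _ _ => Finset.mem_univ _) (by rw [Finset.card_univ, Fintype.card_fin, ← hS]; exact h)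
  obtain ⟨j, hj⟩ := Finset.card_pos.1 (lt_of_le_of_lt (Nat.zero_le _) hc)
  rw [Finset.mem_filter, Set.mem_toFinset] at hj
  refine ⟨j, hj.1, ?_⟩
  have h1 : {i | i ∈ S ∧ t i = t j} = ((S.toFinset.filter fun i => t i = c : Finset (Fin k)) : Set (Fin k)) := by
    ext i
    simp [hj.2]
  rw [h1, Set.ncard_coe_finset]
  exact hc

end Pool.Agent.H53K
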